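import Pool.Agent.Q100.Spec.Main
import Pool.Agent.TH80.CLX.Fam

/-!
# Kicks along a flow
-/

set_option autoImplicit false
set_option linter.unusedSectionVars false

open scoped Manifold ContDiff Topology
open Filter Set Metric

universe u v

namespace Q71.CC

open Pool.Agent.H718R2.G Pool.Agent.W564.SC Pool.Agent.TH290.CL Pool.Agent.Q100.Spec

section
variable {n : ℕ} {N : Type u} [TopologicalSpace N] [ChartedSpace (V n) N] [IsManifold (𝓡 n) ∞ N]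
  {ψ : ℝ → N → N}

/-- `F ∘ ψ_σ ∘ E` -/
noncomputable def famE (hψ : IsFlow n N ψ) {r : ℕ∞} (E F : DiffM n N r) (σ : ℝ) : DiffM n N r :=
  E.trans ((timeMap hψ r σ).trans F)

theorem famE_apply (hψ : IsFlow n N ψ) {r : ℕ∞} (E F : DiffM n N r) (σ : ℝ) (y : N) :
    famE hψ E F σ y = F (ψ σ (E y)) := rfl

theorem famE_isFam (hψ : IsFlow n N ψ) {r : ℕ∞} (E F : DiffM n N r) :
    IsFam n N r (famE hψ E F) := by
  intro y
  have hr : (r : WithTop ℕ∞) ≤ ∞ := by exact_mod_cast le_top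
  have h1 : ContMDiffAt (𝓘(ℝ, ℝ).prod (𝓡 n)) (𝓡 n) r (fun q : ℝ × N => E q.2) ((0 : ℝ), y) :=
    E.contMDiff.contMDiffAt.comp _ contMDiffAt_snd
  have h2 : ContMDiffAt (𝓘(ℝ, ℝ).prod (𝓡 n)) (𝓘(ℝ, ℝ).prod (𝓡 n)) r
      (fun q : ℝ × N => ((q.1, E q.2) : ℝ × N)) ((0 : ℝ), y) := contMDiffAt_fst.prodMk h1
  have h3 : ContMDiffAt (𝓘(ℝ, ℝ).prod (𝓡 n)) (𝓡 n) r
      (fun q : ℝ × N => ψ q.1 (E q.2)) ((0 : ℝ), y) :=
    ContMDiffAt.comp (g := fun q : ℝ × N => ψ q.1 q.2)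
      (f := fun q : ℝ × N => ((q.1, E q.2) : ℝ × N)) _ (hψ.smooth.of_le hr).contMDiffAt h2
  exact ContMDiffAt.comp (g := F) (f := fun q : ℝ × N => ψ q.1 (E q.2)) _ F.contMDiff.contMDiffAt h3

/-- smooth bump functions -/
theorem bump [T2Space N] [CompactSpace N] (z : N) (O : Set N) (hO : IsOpen O) (hz : z ∈ O) :
    ∃ ρ : N → ℝ, ContMDiff (𝓡 n) 𝓘(ℝ, ℝ) ∞ ρ ∧ (∀ y, 0 ≤ ρ y) ∧ (∀ y, ρ y ≤ 1) ∧
      (∀ y, ρ y ≠ 0 → y ∈ O) ∧ ∀ᶠ y in 𝓝 z, ρ y = 1 := by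
  obtain ⟨t, ht, htc, htO⟩ := exists_mem_nhds_isClosed_subset (hO.mem_nhds hz)
  obtain ⟨f, hf0, hf1, hf⟩ := exists_contMDiffMap_zero_one_of_isClosed (n := (⊤ : ℕ∞)) (𝓡 n) hO.isClosed_compl
    htc (disjoint_compl_left_iff_subset.2 htO)
  refine ⟨f, f.contMDiff, fun y => (hf y).1, fun y => (hf y).2, fun y hy => ?_, ?_⟩
  · by_contra h
    exact hy (hf0 h)
  · filter_upwards [ht] with y hy
    exact hf1 hy

/-- the kicks -/
theorem kick [T2Space N] [CompactSpace N] (hψ : IsFlow n N ψ) {r : ℕ∞} (hr : 1 ≤ r)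
    (F : DiffM n N r) (z : N) {ρ : N → ℝ} (hρ : ContMDiff (𝓡 n) 𝓘(ℝ, ℝ) ∞ ρ)
    (U : Set (DiffM n N r)) (hU : IsOpen[strongTop n N r] U) (hF : F ∈ U) {w : ℝ} (hw : 0 < w) :
    ∃ (η : ℝ) (E : DiffM n N r), 0 < η ∧ η ≤ w ∧ (∀ y, E y = ψ (ρ y * η) y) ∧
      famE hψ E F 0 ∈ U := by
  have hA : ContMDiff ((𝓡 1).prod (𝓡 n)) (𝓡 n) ∞ (fun p : V 1 × N => ψ (p.1 0) p.2) := by
    have h1 : ContMDiff ((𝓡 1).prod (𝓡 n)) (𝓘(ℝ, ℝ).prod (𝓡 n)) ∞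
        (fun p : V 1 × N => ((p.1 0, p.2) : ℝ × N)) := by
      refine ContMDiff.prodMk ?_ contMDiff_snd
      have h2 : ContDiff ℝ ∞ (fun v : V 1 => v 0) := by fun_prop
      exact h2.contMDiff.comp contMDiff_fst
    exact hψ.smooth.comp h1
  have h0 : ∀ y, ψ ((0 : V 1) 0) y = y := fun y => hψ.zero y
  have hadd : ∀ (s t : V 1) y, ψ ((s + t) 0) y = ψ (s 0) (ψ (t 0) y) := fun s t y => hψ.add _ _ _
  obtain ⟨H, κ1, hκ1, hH0, hHf, hH⟩ := Pool.Agent.TH80.CLX.act_fam (A := fun v y => ψ (v 0) y)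
    hA hρ h0 hadd r F
  obtain ⟨H', κ2, hκ2, _, _, hH'⟩ := Pool.Agent.TH80.CLX.act_fam (A := fun v y => ψ (v 0) y)
    hA hρ h0 hadd r (Diffeomorph.refl (𝓡 n) N r)
  obtain ⟨κ3, hκ3, hmem⟩ := Pool.Agent.TH80.CLX.fam_mem r hr H hHf z U hU (by rw [hH0]; exact hF)
  set η : ℝ := min (min (κ1 / 2) (κ2 / 2)) (min (κ3 / 2) w) with hη
  have hη0 : 0 < η := lt_min (lt_min (half_pos hκ1) (half_pos hκ2)) (lt_min (half_pos hκ3) hw)
  have e1 : η < κ1 := ((min_le_left _ _).trans (min_le_left _ _)).trans_lt (half_lt_self hκ1)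
  have e2 : η < κ2 := ((min_le_left _ _).trans (min_le_right _ _)).trans_lt (half_lt_self hκ2)
  have e3 : η < κ3 := ((min_le_right _ _).trans (min_le_left _ _)).trans_lt (half_lt_self hκ3)
  have e4 : η ≤ w := (min_le_right _ _).trans (min_le_right _ _)
  set v : V 1 := EuclideanSpace.single 0 η with hv
  have hvn : ‖v‖ = η := by
    rw [hv, PiLp.norm_single, Real.norm_eq_abs, abs_of_pos hη0]
  have hv0 : v 0 = η := by simp [hv]
  refine ⟨η, H' v, hη0, e4, fun y => ?_, ?_⟩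
  · rw [hH' v (by rw [hvn]; exact e2) y]
    show ψ ((ρ y • v) 0) y = _
    rw [PiLp.smul_apply, hv0, smul_eq_mul]
  · have e : famE hψ (H' v) F 0 = H v := by
      apply Diffeomorph.ext
      intro y
      rw [famE_apply, hψ.zero, hH' v (by rw [hvn]; exact e2) y, hH v (by rw [hvn]; exact e1) y]
      rfl
    rw [e]
    exact hmem v (by rw [hvn]; exact e3)

end

end Q71.CC
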