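import Mathlib

/-!
# Circle maps whose rotation number is not locally constant
-/

set_option autoImplicit false

open Filter Set Topology

namespace Q71.CC

/-- `t ↦ s + H t` -/
noncomputable def shift (H : CircleDeg1Lift) (s : ℝ) : CircleDeg1Lift :=
  (CircleDeg1Lift.translate (Multiplicative.ofAdd s) : CircleDeg1Lift) * H

theorem shift_apply (H : CircleDeg1Lift) (s t : ℝ) : shift H s t = s + H t := rfl

theorem shift_zero (H : CircleDeg1Lift) : shift H 0 = H := by
  ext t
  rw [shift_apply, zero_add]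

/-- The rotation number of `H` is not locally constant: arbitrarily small rotations, composed with
`H`, change it. -/
def NotLocked (H : CircleDeg1Lift) : Prop :=
  ∀ ε : ℝ, 0 < ε → ∃ s : ℝ, |s| < ε ∧ (shift H s).translationNumber ≠ H.translationNumber

theorem iter_cont (H : CircleDeg1Lift) (hc : Continuous H) (q : ℕ) :
    Continuous fun z : ℝ × ℝ => (shift H z.1)^[q] z.2 := by
  induction q with
  | zero => exact continuous_snd
  | succ q ih =>
    simp only [Function.iterate_succ_apply', shift_apply]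
    exact continuous_fst.add (hc.comp ih)

theorem between (H : CircleDeg1Lift) (hc : Continuous H) {a b : ℝ} {q : ℕ} {p : ℤ}
    (ha : ∀ x, (shift H a)^[q] x < x + p) (hb : ∀ x, x + p < (shift H b)^[q] x) :
    ∃ s ∈ uIcc a b, (∀ t, t + p ≤ (shift H s)^[q] t) ∧ ∃ ζ, (shift H s)^[q] ζ = ζ + p := by
  set D : ℝ → ℝ → ℝ := fun s t => (shift H s)^[q] t - t - p with hD
  have hDc : Continuous ↿D := ((iter_cont H hc q).sub continuous_snd).sub continuous_const
  have hDs : ∀ s, Continuous (D s) := fun s => hDc.comp (Continuous.prodMk_right s)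
  set m : ℝ → ℝ := fun s => sInf (D s '' Icc 0 1) with hm
  have hmc : Continuous m := isCompact_Icc.continuous_sInf hDc
  have hne : (Icc (0 : ℝ) 1).Nonempty := ⟨0, by simp⟩
  have hatt : ∀ s, ∃ t ∈ Icc (0 : ℝ) 1, m s = D s t := fun s => by
    obtain ⟨t, ht, hts, _⟩ := isCompact_Icc.exists_sInf_image_eq_and_le hne (hDs s).continuousOn
    exact ⟨t, ht, hts⟩
  have hle : ∀ s, ∀ t ∈ Icc (0 : ℝ) 1, m s ≤ D s t := fun s t ht =>
    csInf_le (isCompact_Icc.image (hDs s)).bddBelow (mem_image_of_mem _ ht)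
  have h1 : m a ≤ 0 := by
    have h2 := hle a 0 (by simp)
    have h3 := ha 0
    have h4 : D a 0 = (shift H a)^[q] 0 - 0 - p := rfl
    linarith
  have h2 : 0 ≤ m b := by
    obtain ⟨t, _, ht⟩ := hatt b
    rw [ht]
    have h3 := hb t
    have h4 : D b t = (shift H b)^[q] t - t - p := rfl
    linarith
  obtain ⟨s, hs, hs0⟩ := intermediate_value_uIcc (a := a) (b := b) hmc.continuousOn
    (show (0 : ℝ) ∈ uIcc (m a) (m b) by rw [uIcc_of_le (h1.trans h2)]; exact ⟨h1, h2⟩)
  refine ⟨s, hs, fun t => ?_, ?_⟩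
  · have h3 : ∀ x ∈ Icc (0 : ℝ) 1, (0 : ℝ) ≤ (shift H s ^ q) x - x - p := by
      intro x hx
      have h4 := hle s x hx
      rw [hs0] at h4
      rw [CircleDeg1Lift.coe_pow]
      exact h4
    have h4 := CircleDeg1Lift.forall_map_sub_of_Icc (shift H s ^ q)
      (fun y => (0 : ℝ) ≤ y - p) h3 t
    rw [CircleDeg1Lift.coe_pow] at h4
    linarith
  · obtain ⟨t, _, ht⟩ := hatt s
    refine ⟨t, ?_⟩
    rw [hs0] at ht
    have h4 : D s t = (shift H s)^[q] t - t - p := rfl
    linarith

theorem unlock (H : CircleDeg1Lift) (hc : Continuous H) (h : NotLocked H) {ε : ℝ} (hε : 0 < ε) :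
    ∃ s : ℝ, |s| < ε ∧ ∃ (q : ℕ) (p : ℤ), 1 ≤ q ∧ (∀ t, t + p ≤ (shift H s)^[q] t) ∧
      ∃ ζ, (shift H s)^[q] ζ = ζ + p := by
  obtain ⟨s1, hs1, hne⟩ := h ε hε
  -- comparison with a rational number
  have key : ∀ A : CircleDeg1Lift, ∀ r : ℚ, (A.translationNumber < r →
      ∀ x, A^[r.den] x < x + r.num) ∧ ((r : ℝ) < A.translationNumber →
      ∀ x, x + r.num < A^[r.den] x) := by
    intro A r
    have hd : (0 : ℝ) < r.den := by exact_mod_cast r.pos
    have hr : (r : ℝ) * r.den = r.num := by exact_mod_cast Rat.mul_den_eq_num r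
    constructor
    · intro hlt x
      rw [← CircleDeg1Lift.coe_pow]
      apply CircleDeg1Lift.map_lt_of_translationNumber_lt_int
      rw [CircleDeg1Lift.translationNumber_pow]
      nlinarith
    · intro hlt x
      rw [← CircleDeg1Lift.coe_pow]
      apply CircleDeg1Lift.lt_map_of_int_lt_translationNumber
      rw [CircleDeg1Lift.translationNumber_pow]
      nlinarith
  rcases lt_or_gt_of_ne hne with hlt | hlt
  · obtain ⟨r, hr1, hr2⟩ := exists_rat_btwn hlt
    have h1 := (key _ r).1 hr1
    have h2 := (key _ r).2 hr2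
    rw [← shift_zero H] at h2
    obtain ⟨s, hs, h3, h4⟩ := between H hc h1 h2
    refine ⟨s, ?_, r.den, r.num, r.pos, h3, h4⟩
    rw [mem_uIcc] at hs
    rw [abs_lt] at hs1 ⊢
    rcases hs with hs | hs <;> constructor <;> linarith [hs.1, hs.2]
  · obtain ⟨r, hr1, hr2⟩ := exists_rat_btwn hlt
    have h1 := (key _ r).1 hr1
    have h2 := (key _ r).2 hr2
    rw [← shift_zero H] at h1
    obtain ⟨s, hs, h3, h4⟩ := between H hc h1 h2
    refine ⟨s, ?_, r.den, r.num, r.pos, h3, h4⟩
    rw [mem_uIcc] at hs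
    rw [abs_lt] at hs1 ⊢
    rcases hs with hs | hs <;> constructor <;> linarith [hs.1, hs.2]

theorem iter_up (H : CircleDeg1Lift) {s : ℝ} (hs : 0 ≤ s) (q : ℕ) (y : ℝ) :
    H^[q + 1] y + s ≤ (shift H s)^[q + 1] y := by
  induction q with
  | zero => simp only [zero_add, Function.iterate_one, shift_apply]; linarith
  | succ q ih =>
    rw [Function.iterate_succ_apply', Function.iterate_succ_apply' _ (q + 1), shift_apply]
    have : H (H^[q + 1] y) ≤ H ((shift H s)^[q + 1] y) := H.mono (by linarith)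
    linarith

theorem iter_down (H : CircleDeg1Lift) {s : ℝ} (hs : 0 ≤ s) (q : ℕ) (y : ℝ) :
    (shift H (-s))^[q + 1] y ≤ H^[q + 1] y - s := by
  induction q with
  | zero => simp only [zero_add, Function.iterate_one, shift_apply]; linarith
  | succ q ih =>
    rw [Function.iterate_succ_apply', Function.iterate_succ_apply' _ (q + 1), shift_apply]
    have : H ((shift H (-s))^[q + 1] y) ≤ H (H^[q + 1] y) := H.mono (by linarith)
    linarith

/-- An irrational rotation number is not locally constant. -/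
theorem notLocked_of_irrational (H : CircleDeg1Lift) (h : Irrational H.translationNumber) :
    NotLocked H := by
  intro ε hε
  by_contra hcon
  push Not at hcon
  set α := H.translationNumber with hα
  set δ := ε / 2 with hδ
  have hδ0 : 0 < δ := half_pos hε
  obtain ⟨N, hN⟩ := exists_nat_one_div_lt hδ0
  obtain ⟨j, k, hk0, _, hjk⟩ := Real.exists_int_int_abs_mul_sub_le α (n := N + 1) (by omega)
  obtain ⟨q, rfl⟩ : ∃ q : ℕ, k = (q + 1 : ℕ) := ⟨(k - 1).toNat, by omega⟩
  have h1 : ((q + 1 : ℕ) : ℝ) * α - j ≠ 0 := by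
    intro h2
    have h3 : Irrational (((q + 1 : ℕ) : ℝ) * α) := h.natCast_mul (by omega)
    apply h3.ne_int j
    linarith
  have h2 : |((q + 1 : ℕ) : ℝ) * α - j| < δ := by
    have h3 : (1 : ℝ) / (((N + 1 : ℕ) : ℝ) + 1) ≤ 1 / ((N : ℝ) + 1) := by
      apply one_div_le_one_div_of_le (by positivity)
      push_cast
      linarith
    have h4 : (((q + 1 : ℕ) : ℤ) : ℝ) = ((q + 1 : ℕ) : ℝ) := by push_cast; ring
    rw [h4] at hjk
    linarith
  rw [abs_lt] at h2
  have e1 : (shift H δ).translationNumber = α :=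
    hcon δ (by rw [abs_of_pos hδ0]; linarith)
  have e2 : (shift H (-δ)).translationNumber = α :=
    hcon (-δ) (by rw [abs_neg, abs_of_pos hδ0]; linarith)
  rcases lt_or_gt_of_ne h1 with h3 | h3
  · obtain ⟨y, hy⟩ : ∃ y, y + j - δ ≤ (H ^ (q + 1)) y := by
      by_contra hno
      push Not at hno
      have h4 := CircleDeg1Lift.translationNumber_le_of_le_add (H ^ (q + 1)) (z := j - δ)
        (fun x => by have := hno x; linarith)
      rw [CircleDeg1Lift.translationNumber_pow] at h4
      linarith [h2.1]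
    rw [CircleDeg1Lift.coe_pow] at hy
    have h4 := iter_up H hδ0.le q y
    have h5 : y + j ≤ (shift H δ ^ (q + 1)) y := by
      rw [CircleDeg1Lift.coe_pow]
      linarith
    have h6 := CircleDeg1Lift.le_translationNumber_of_add_int_le _ h5
    rw [CircleDeg1Lift.translationNumber_pow, e1] at h6
    linarith
  · obtain ⟨y, hy⟩ : ∃ y, (H ^ (q + 1)) y ≤ y + j + δ := by
      by_contra hno
      push Not at hno
      have h4 := CircleDeg1Lift.le_translationNumber_of_add_le (H ^ (q + 1)) (z := j + δ)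
        (fun x => by have := hno x; linarith)
      rw [CircleDeg1Lift.translationNumber_pow] at h4
      linarith [h2.2]
    rw [CircleDeg1Lift.coe_pow] at hy
    have h4 := iter_down H hδ0.le q y
    have h5 : (shift H (-δ) ^ (q + 1)) y ≤ y + j := by
      rw [CircleDeg1Lift.coe_pow]
      linarith
    have h6 := CircleDeg1Lift.translationNumber_le_of_le_add_int _ h5
    rw [CircleDeg1Lift.translationNumber_pow, e2] at h6
    linarith

/-- Rotations are not locked. -/
theorem notLocked_translate (a : ℝ) :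
    NotLocked (CircleDeg1Lift.translate (Multiplicative.ofAdd a) : CircleDeg1Lift) := by
  intro ε hε
  refine ⟨ε / 2, by rw [abs_of_pos (half_pos hε)]; linarith, ?_⟩
  have e : shift (CircleDeg1Lift.translate (Multiplicative.ofAdd a) : CircleDeg1Lift) (ε / 2) =
      (CircleDeg1Lift.translate (Multiplicative.ofAdd (ε / 2 + a)) : CircleDeg1Lift) := by
    ext t
    rw [shift_apply, CircleDeg1Lift.translate_apply, CircleDeg1Lift.translate_apply]
    ring
  rw [e, CircleDeg1Lift.translationNumber_translate, CircleDeg1Lift.translationNumber_translate]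
  linarith

end Q71.CC
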