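import Pool.Agent.Q71.CC.Fib
import Pool.Agent.Q71.CC.Rot
import Pool.Agent.Q71.CC.Kick
import Pool.Agent.W54.SC.C
import Pool.Agent.TH382.HS.Limit

/-!
# The `C^r` closing lemma for products with circle maps
-/

set_option autoImplicit false
set_option linter.unusedSectionVars false

open scoped Manifold ContDiff Topology
open Filter Set Metric

universe u v

namespace Q71.CC

open Pool.Agent.H718R2.G Pool.Agent.W564.SC Pool.Agent.TH290.CL Pool.Agent.Q100.Spec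

/-- Every neighbourhood of `x` has arbitrarily late returns. (For continuous maps of Hausdorff spaces
this says that `x` is nonwandering.) -/
def LongRet {X : Type*} [TopologicalSpace X] (f : X → X) (x : X) : Prop :=
  ∀ W ∈ 𝓝 x, ∀ M : ℕ, ∃ m, M ≤ m ∧ 1 ≤ m ∧ ∃ y ∈ W, f^[m] y ∈ W

/-- Long returns of nonwandering points. -/
theorem long_returns {X : Type*} [TopologicalSpace X] [T2Space X] (f : X → X) (hf : Continuous f)
    (x : X) (hx : NonWand f x) : LongRet f x := by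
  intro W hW M0
  by_cases h : ∃ b : ℕ, 1 ≤ b ∧ f^[b] x = x
  · obtain ⟨b, hb, hbx⟩ := h
    have h4 : Function.IsPeriodicPt f b x := hbx
    refine ⟨b * (M0 + 1), ?_, Nat.mul_pos hb (by omega), x, mem_of_mem_nhds hW, ?_⟩
    · calc M0 ≤ 1 * (M0 + 1) := by omega
        _ ≤ b * (M0 + 1) := Nat.mul_le_mul_right _ hb
    · rw [(h4.mul_const (M0 + 1)).eq]
      exact mem_of_mem_nhds hW
  · push Not at h
    obtain ⟨W', hW', hsep⟩ := Pool.Agent.W54.SC.separate f hf x h M0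
    obtain ⟨m, hm, y, hy, hy'⟩ := hx (W ∩ W') (inter_mem hW hW')
    refine ⟨m, ?_, hm, y, hy.1, hy'.1⟩
    by_contra hlt
    push Not at hlt
    exact hsep m hm hlt y hy.2 hy'.2

section
variable {n : ℕ} {N : Type u} [TopologicalSpace N] [T2Space N] [CompactSpace N]
  [ChartedSpace (V n) N] [IsManifold (𝓡 n) ∞ N] {ψ : ℝ → N → N}
  {X : Type v} [TopologicalSpace X]

/-- distance of two classes mod `1/Q` -/
theorem near_of_norm {Q : ℕ} (hQ : 1 ≤ Q) {t t0 w : ℝ}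
    (h : ‖Q • ((t : AddCircle (1 : ℝ)) - (t0 : AddCircle (1 : ℝ)))‖ < w) :
    ∃ m : ℤ, |t - (t0 + m / Q)| < w := by
  have hQ1 : (1 : ℝ) ≤ Q := by exact_mod_cast hQ
  rw [← AddCircle.coe_sub, ← AddCircle.coe_nsmul, UnitAddCircle.norm_eq, nsmul_eq_mul] at h
  refine ⟨round ((Q : ℝ) * (t - t0)), ?_⟩
  have e : t - (t0 + (round ((Q : ℝ) * (t - t0)) : ℝ) / Q) =
      ((Q : ℝ) * (t - t0) - round ((Q : ℝ) * (t - t0))) / Q := by
    field_simp
    ring
  rw [e, abs_div, abs_of_pos (by linarith : (0 : ℝ) < Q)]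
  exact (div_le_self (abs_nonneg _) hQ1).trans_lt h

/-- The map `Θ` is a good system of coordinates at `(x, c)`, up to `1/Q`-periodicity: `Θ (·, c)` is
continuous at `x`, and `Q (c' - c) → 0` when `Θ (x', c') → Θ (x, c)`. -/
def GoodCoord (Q : ℕ) (Θ : X × AddCircle (1 : ℝ) → N) (x : X) (c : AddCircle (1 : ℝ)) : Prop :=
  ContinuousAt (fun x' => Θ (x', c)) x ∧
    Tendsto (fun a : X × AddCircle (1 : ℝ) => Q • (a.2 - c)) (comap Θ (𝓝 (Θ (x, c)))) (𝓝 0)

theorem GoodCoord.of_comap {Θ : X × AddCircle (1 : ℝ) → N} {x : X} {c : AddCircle (1 : ℝ)}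
    (h : comap Θ (𝓝 (Θ (x, c))) = 𝓝 (x, c)) : GoodCoord 1 Θ x c := by
  constructor
  · have hc1 : ContinuousAt Θ (x, c) := by
      rw [ContinuousAt, ← h]
      exact tendsto_comap
    exact ContinuousAt.comp (f := fun x' : X => (x', c)) (g := Θ) hc1
      (Continuous.prodMk_left _).continuousAt
  · rw [h]
    have h1 : Continuous (fun a : X × AddCircle (1 : ℝ) => 1 • (a.2 - c)) := by
      simp only [one_smul]
      exact continuous_snd.sub continuous_const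
    have h2 := h1.tendsto (x, c)
    simpa using h2

theorem fibre_cont (hψ : IsFlow n N ψ) {Θ : X × AddCircle (1 : ℝ) → N}
    (hflow : ∀ (t : ℝ) x (c : AddCircle (1 : ℝ)), ψ t (Θ (x, c)) = Θ (x, c + (t : AddCircle (1 : ℝ))))
    (x : X) : Continuous fun t : ℝ => Θ (x, (t : AddCircle (1 : ℝ))) := by
  have e : (fun t : ℝ => Θ (x, (t : AddCircle (1 : ℝ)))) = fun t => ψ t (Θ (x, 0)) := by
    funext t
    rw [hflow, zero_add]
  rw [e]
  exact hψ.smooth.continuous.comp (Continuous.prodMk_left _)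

/-- the property of the coordinates can be moved along the circle -/
theorem GoodCoord.move (hψ : IsFlow n N ψ) {Θ : X × AddCircle (1 : ℝ) → N}
    (hflow : ∀ (t : ℝ) x (c : AddCircle (1 : ℝ)), ψ t (Θ (x, c)) = Θ (x, c + (t : AddCircle (1 : ℝ))))
    {Q : ℕ} {x : X} {c : AddCircle (1 : ℝ)} (h : GoodCoord Q Θ x c) (t : ℝ) :
    GoodCoord Q Θ x (c + (t : AddCircle (1 : ℝ))) := by
  have hψt : ∀ s : ℝ, Continuous (ψ s) := fun s => (timeMap hψ ⊤ s).continuous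
  constructor
  · have e : (fun x' => Θ (x', c + (t : AddCircle (1 : ℝ)))) = fun x' => ψ t (Θ (x', c)) := by
      funext x'
      rw [hflow]
    rw [e]
    exact ContinuousAt.comp (f := fun x' => Θ (x', c)) (g := ψ t) (hψt t).continuousAt h.1
  · set S : X × AddCircle (1 : ℝ) → X × AddCircle (1 : ℝ) :=
      fun a => (a.1, a.2 + ((-t : ℝ) : AddCircle (1 : ℝ))) with hS
    have h1 : Tendsto S (comap Θ (𝓝 (Θ (x, c + (t : AddCircle (1 : ℝ))))))
        (comap Θ (𝓝 (Θ (x, c)))) := by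
      rw [tendsto_comap_iff]
      have e : Θ ∘ S = ψ (-t) ∘ Θ := by
        funext a
        obtain ⟨x', c'⟩ := a
        show Θ (x', c' + ((-t : ℝ) : AddCircle (1 : ℝ))) = ψ (-t) (Θ (x', c'))
        rw [hflow]
      have e2 : Θ (x, c) = ψ (-t) (Θ (x, c + (t : AddCircle (1 : ℝ)))) := by
        rw [hflow, AddCircle.coe_neg, add_neg_cancel_right]
      rw [e, e2]
      exact ((hψt (-t)).tendsto _).comp tendsto_comap
    have h2 := h.2.comp h1
    have e3 : ((fun a : X × AddCircle (1 : ℝ) => Q • (a.2 - c)) ∘ S) =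
        fun a : X × AddCircle (1 : ℝ) => Q • (a.2 - (c + (t : AddCircle (1 : ℝ)))) := by
      funext a
      show Q • (a.2 + ((-t : ℝ) : AddCircle (1 : ℝ)) - c) = _
      rw [AddCircle.coe_neg]
      congr 1
      abel
    rwa [e3] at h2

theorem barrier_nhds {Q : ℕ} (hQ : 1 ≤ Q) {Θ : X × AddCircle (1 : ℝ) → N} (x : X) (t0 : ℝ)
    (hΘ : GoodCoord Q Θ x (t0 : AddCircle (1 : ℝ))) {w : ℝ} (hw : 0 < w) :
    ∃ O : Set N, IsOpen O ∧ Θ (x, (t0 : AddCircle (1 : ℝ))) ∈ O ∧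
      ∀ x' (t : ℝ), Θ (x', (t : AddCircle (1 : ℝ))) ∈ O → ∃ m : ℤ, |t - (t0 + m / Q)| < w := by
  have h0 := hΘ.2.norm
  rw [norm_zero] at h0
  have h1 := h0.eventually (gt_mem_nhds hw)
  rw [eventually_comap] at h1
  obtain ⟨O, hOO', hO, hzO⟩ := mem_nhds_iff.1 h1
  refine ⟨O, hO, hzO, fun x' t ht => ?_⟩
  have h2 := hOO' ht (x', (t : AddCircle (1 : ℝ))) rfl
  exact near_of_norm hQ h2

theorem near_chart {Q : ℕ} {Θ : X × AddCircle (1 : ℝ) → N} (x : X) (t0 : ℝ)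
    (hΘ : GoodCoord Q Θ x (t0 : AddCircle (1 : ℝ)))
    {χ : OpenPartialHomeomorph N (V n)} (hsrc : Θ (x, (t0 : AddCircle (1 : ℝ))) ∈ χ.source)
    (hzero : χ (Θ (x, (t0 : AddCircle (1 : ℝ)))) = 0) {ε : ℝ} (hε : 0 < ε) :
    ∀ᶠ x' in 𝓝 x, Θ (x', (t0 : AddCircle (1 : ℝ))) ∈ χ.source ∧
      ‖χ (Θ (x', (t0 : AddCircle (1 : ℝ))))‖ < ε := by
  have hc : ContinuousAt (fun x' : X => Θ (x', (t0 : AddCircle (1 : ℝ)))) x := hΘ.1
  have h1 := hc.eventually_mem (χ.open_source.mem_nhds hsrc)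
  have h2 : ContinuousAt (fun x' : X => ‖χ (Θ (x', (t0 : AddCircle (1 : ℝ))))‖) x :=
    (ContinuousAt.comp (f := fun x' : X => Θ (x', (t0 : AddCircle (1 : ℝ)))) (g := χ)
      (χ.continuousAt hsrc) hc).norm
  have h3 : ‖χ (Θ (x, (t0 : AddCircle (1 : ℝ))))‖ < ε := by
    rw [hzero, norm_zero]
    exact hε
  exact h1.and (h2.eventually (gt_mem_nhds h3))

theorem core {r : ℕ∞} (hr : 1 ≤ r) (F : DiffM n N r) (hψ : IsFlow n N ψ)
    {Θ : X × AddCircle (1 : ℝ) → N} {f : X → X} (H : CircleDeg1Lift) (hH : Continuous H)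
    (hflow : ∀ (t : ℝ) x (c : AddCircle (1 : ℝ)), ψ t (Θ (x, c)) = Θ (x, c + (t : AddCircle (1 : ℝ))))
    (hF : ∀ x (t : ℝ), F (Θ (x, (t : AddCircle (1 : ℝ)))) = Θ (f x, ((H t : ℝ) : AddCircle (1 : ℝ))))
    {q : ℕ} {p : ℤ} (hq0 : 1 ≤ q) (hq : ∀ t, t + p ≤ H^[q] t) {ζ : ℝ}
    (hζ : H^[q] ζ = ζ + p) (x : X) (hx : LongRet f x) (t0 : ℝ) {Q : ℕ} (hQ : 1 ≤ Q)
    (hΘ : GoodCoord Q Θ x (t0 : AddCircle (1 : ℝ)))
    (ht0 : ∀ i < q, ∀ m : ℤ, H^[i] ζ ≠ t0 + m / Q) :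
    Closable n N r F (Θ (x, (t0 : AddCircle (1 : ℝ)))) := by
  classical
  intro U hU hFU
  set z : N := Θ (x, (t0 : AddCircle (1 : ℝ))) with hz
  -- the barrier
  have hQ1 : (1 : ℝ) ≤ Q := by exact_mod_cast hQ
  obtain ⟨w, hw, hbar⟩ : ∃ w : ℝ, 0 < w ∧ ∀ i < q, ∀ m : ℤ,
      2 * w ≤ |H^[i] ζ - (t0 + m / Q)| := by
    obtain ⟨c, hc, hcm⟩ := Pool.Agent.W216.SC.exists_pos_le (Finset.range q)
      (fun i => |Q * (H^[i] ζ - t0) - round (Q * (H^[i] ζ - t0))|) (by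
        intro i hi
        rw [Finset.mem_range] at hi
        apply abs_pos.2
        intro h
        apply ht0 i hi (round (Q * (H^[i] ζ - t0)))
        field_simp
        linarith)
    refine ⟨c / (2 * Q), by positivity, fun i hi m => ?_⟩
    have h1 := hcm i (Finset.mem_range.2 hi)
    have h2 := round_le (Q * (H^[i] ζ - t0)) m
    have h3 : |Q * (H^[i] ζ - t0) - m| = Q * |H^[i] ζ - (t0 + m / Q)| := by
      rw [← abs_of_pos (show (0 : ℝ) < Q by linarith), ← abs_mul, abs_of_pos (show (0 : ℝ) < Q by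
        linarith)]
      congr 1
      field_simp
      ring
    rw [h3] at h2
    have h4 : 2 * (c / (2 * Q)) = c / Q := by field_simp
    rw [h4, div_le_iff₀ (by linarith)]
    linarith
  -- the neighbourhood
  obtain ⟨O, hO, hzO, hOw⟩ := barrier_nhds hQ x t0 hΘ hw
  obtain ⟨ρ, hρs, hρ0, hρ1, hρO, hρz⟩ := bump (n := n) z O hO hzO
  obtain ⟨η, E, hη, hηw, hE, hEU⟩ := kick hψ hr F z hρs U hU hFU hw
  obtain ⟨χ, hχ⟩ := Pool.Agent.W699.SC.gc n N z
  obtain ⟨k, hk, κ, hκ, hcl⟩ := t_CL n N r hr ℝ (famE hψ E F) (famE_isFam hψ E F) χ z hχ U hU hEU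
  -- the radius on which the kick is full
  obtain ⟨w', hw', hfull⟩ : ∃ w' : ℝ, 0 < w' ∧ ∀ y ∈ χ.source, ‖χ y‖ < w' → ρ y = 1 := by
    have h1 : χ.symm ⁻¹' {y | ρ y = 1} ∈ 𝓝 (χ z) := by
      apply (χ.symm.continuousAt (χ.map_source hχ.src))
      rw [χ.left_inv hχ.src]
      exact hρz
    rw [hχ.zero] at h1
    obtain ⟨w', hw', h2⟩ := Metric.mem_nhds_iff.1 h1
    refine ⟨w', hw', fun y hy hyw => ?_⟩
    have h3 : χ y ∈ ball (0 : V n) w' := by rwa [mem_ball_zero_iff]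
    have h4 := h2 h3
    rw [mem_preimage, χ.left_inv hy] at h4
    exact h4
  obtain ⟨n0, K, hfib⟩ := fib H.monotone hH (fun t => H.map_add_one t) hq0 hq hζ hw hQ hbar
    (half_pos hκ) hη hηw
  have hη' : 0 < min κ (w' / 4) := lt_min hκ (by linarith)
  obtain ⟨d, hd, hsel⟩ := sel k hκ hη' K
  -- the neighbourhood of `x`
  have hnear := near_chart x t0 hΘ hχ.src hχ.zero (show (0 : ℝ) < min (min κ (w' / 2)) (d / 2) from
    lt_min (lt_min hκ (half_pos hw')) (half_pos hd))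
  obtain ⟨m, hm0, hm1, x0, hx0, hxm⟩ := hx _ hnear n0
  obtain ⟨hs0, hb0⟩ := hx0
  obtain ⟨hsm, hbm⟩ := hxm
  -- the trajectory
  obtain ⟨σ, l, s, hσ0, hσ1, hs00, hss, hsn, hcard⟩ := hfib m hm0
    (fun i t => ρ (Θ (f^[i] x0, (t : AddCircle (1 : ℝ)))))
    (fun i => hρs.continuous.comp (fibre_cont hψ hflow (f^[i] x0)))
    (fun i t => hρ0 _) (fun i t => hρ1 _) (fun i t h => hOw _ _ (hρO _ h))
  have htraj : ∀ i : ℕ, (famE hψ E F σ)^[i] (Θ (x0, (t0 : AddCircle (1 : ℝ)))) =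
      Θ (f^[i] x0, (s i : AddCircle (1 : ℝ))) := by
    intro i
    induction i with
    | zero => rw [hs00]; rfl
    | succ i ih =>
      rw [Function.iterate_succ_apply', ih, famE_apply, hE, hflow, hflow,
        Function.iterate_succ_apply' f, hss, ← hF]
      congr 3
  have hzm : (famE hψ E F σ)^[m] (Θ (x0, (t0 : AddCircle (1 : ℝ)))) =
      Θ (f^[m] x0, (t0 : AddCircle (1 : ℝ))) := by
    rw [htraj, hsn]
    congr 2
    rw [AddCircle.coe_add]
    have : ((l : ℝ) : AddCircle (1 : ℝ)) = 0 := by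
      rw [AddCircle.coe_eq_zero_iff]
      exact ⟨l, by simp⟩
    rw [this, add_zero]
  set Z : ℕ → N := fun i => (famE hψ E F σ)^[i] (Θ (x0, (t0 : AddCircle (1 : ℝ)))) with hZ
  have hZ0 : Z 0 = Θ (x0, (t0 : AddCircle (1 : ℝ))) := rfl
  set T : Finset ℕ := (Finset.range m).filter (fun i => 0 < i ∧ Z i ∈ χ.source ∧ ‖χ (Z i)‖ < w')
    with hT
  have hTm : ∀ i ∈ T, i < m := by
    intro i hi
    rw [hT, Finset.mem_filter, Finset.mem_range] at hi
    exact hi.1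
  have hTc : T.card ≤ K := by
    apply hcard
    intro i hi
    refine ⟨hTm i hi, ?_⟩
    rw [hT, Finset.mem_filter, Finset.mem_range] at hi
    show ρ (Θ (f^[i] x0, (s i : AddCircle (1 : ℝ)))) = 1
    rw [← htraj]
    exact hfull _ hi.2.2.1 hi.2.2.2
  have hvm : ‖χ (Z m) - χ (Z 0)‖ < d := by
    have e : Z m = Θ (f^[m] x0, (t0 : AddCircle (1 : ℝ))) := hzm
    rw [e, hZ0]
    have h1 := norm_sub_le (χ (Θ (f^[m] x0, (t0 : AddCircle (1 : ℝ)))))
      (χ (Θ (x0, (t0 : AddCircle (1 : ℝ)))))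
    have h2 := hbm.trans_le (min_le_right _ _)
    have h3 := hb0.trans_le (min_le_right _ _)
    linarith
  obtain ⟨b, ρ', hb, hρ'0, hρ'1, hvb, hTb⟩ := hsel (fun i => ‖χ (Z i) - χ (Z 0)‖) m T hTc hvm hTm
  have hbm' : b ≤ m := by
    rcases hb with hb | hb
    · exact (hTm b hb).le
    · exact hb.le
  have hb1 : 1 ≤ b := by
    rcases hb with hb | hb
    · rw [hT, Finset.mem_filter] at hb
      exact hb.2.1
    · rw [hb]
      exact hm1
  have hbs : Z b ∈ χ.source := by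
    rcases hb with hb | hb
    · rw [hT, Finset.mem_filter] at hb
      exact hb.2.2.1
    · rw [hb]
      show (famE hψ E F σ)^[m] (Θ (x0, (t0 : AddCircle (1 : ℝ)))) ∈ χ.source
      rw [hzm]
      exact hsm
  have hb0κ : ‖χ (Z 0)‖ < κ := (hb0.trans_le (min_le_left _ _)).trans_le (min_le_left _ _)
  have hb0w : ‖χ (Z 0)‖ < w' / 2 := (hb0.trans_le (min_le_left _ _)).trans_le (min_le_right _ _)
  refine hcl σ (Θ (x0, (t0 : AddCircle (1 : ℝ)))) ρ' b ?_ hs0 hb0κ hρ'0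
    (hρ'1.trans_le (min_le_left _ _)) hb1 hbs hvb ?_
  · rw [Real.norm_eq_abs, abs_of_nonneg hσ0]
    linarith
  · intro i hi0 hib hi
    by_cases hiw : ‖χ (Z i)‖ < w'
    · exact hTb i (by
        rw [hT, Finset.mem_filter, Finset.mem_range]
        exact ⟨by omega, hi0, hi, hiw⟩) hib
    · push Not at hiw
      have h1 := norm_sub_norm_le (χ (Z i)) (χ (Z 0))
      have h2 : ρ' < w' / 4 := hρ'1.trans_le (min_le_right _ _)
      show 2 * ρ' ≤ ‖χ (Z i) - χ (Z 0)‖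
      linarith

theorem shift_cont (H : CircleDeg1Lift) (hH : Continuous H) (s : ℝ) : Continuous (shift H s) :=
  continuous_const.add hH

/-- **The closing lemma**: `F` is, on the invariant set `Θ (X × S¹)`, the product of an arbitrary
map `f` and the circle map induced by `H`, the rotation number of which is not locally constant. -/
theorem main {r : ℕ∞} (hr : 1 ≤ r) (F : DiffM n N r) (hψ : IsFlow n N ψ)
    {Θ : X × AddCircle (1 : ℝ) → N} {f : X → X}
    (H : CircleDeg1Lift) (hH : Continuous H) (hnl : NotLocked H)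
    (hflow : ∀ (t : ℝ) x (c : AddCircle (1 : ℝ)), ψ t (Θ (x, c)) = Θ (x, c + (t : AddCircle (1 : ℝ))))
    (hF : ∀ x (t : ℝ), F (Θ (x, (t : AddCircle (1 : ℝ)))) = Θ (f x, ((H t : ℝ) : AddCircle (1 : ℝ))))
    (x : X) (hx : LongRet f x) (c : AddCircle (1 : ℝ)) {Q : ℕ} (hQ : 1 ≤ Q)
    (hΘ : GoodCoord Q Θ x c) : Pool.Agent.TH382.QC.ClosableAt n N r F (Θ (x, c)) := by
  apply Pool.Agent.TH382.HS.closable_of_limit
  intro U hU hFU
  obtain ⟨κ, hκ, hmem⟩ := Pool.Agent.TH80.CLX.fam_mem r hr (famH hψ F) (famH_isFam hψ F)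
    (Θ (x, c)) U hU (by rwa [famH_zero])
  obtain ⟨s, hs, q, p, hq0, hq, ζ, hζ⟩ := unlock H hH hnl hκ
  refine ⟨famH hψ F s, hmem s hs, ?_⟩
  -- the exceptional set
  set B : Set ℝ := ⋃ i : ℕ, ⋃ m : ℤ, {(shift H s)^[i] ζ - m / Q} with hB
  have hBc : B.Countable := countable_iUnion fun i => countable_iUnion fun m =>
    countable_singleton _
  have hdense : Dense Bᶜ := hBc.dense_compl ℝ
  obtain ⟨t, rfl⟩ := QuotientAddGroup.mk_surjective c
  have hcl : ∀ t0 ∈ Bᶜ, Pool.Agent.TH382.QC.ClosableAt n N r (famH hψ F s)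
      (Θ (x, (t0 : AddCircle (1 : ℝ)))) := by
    intro t0 ht0
    refine core hr (famH hψ F s) hψ (shift H s) (shift_cont H hH s) hflow ?_ hq0 hq hζ x hx
      t0 hQ ?_ ?_
    · intro x' t
      rw [famH_apply, hF, hflow, shift_apply, add_comm s, AddCircle.coe_add]
    · have h1 := GoodCoord.move hψ hflow hΘ (t0 - t)
      have h2 : (t : AddCircle (1 : ℝ)) + ((t0 - t : ℝ) : AddCircle (1 : ℝ)) =
          (t0 : AddCircle (1 : ℝ)) := by
        rw [← AddCircle.coe_add]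
        congr 1
        ring
      have h3 : (QuotientAddGroup.mk t : AddCircle (1 : ℝ)) = (t : AddCircle (1 : ℝ)) := rfl
      rw [h3, h2] at h1
      exact h1
    · intro i _ m h
      apply ht0
      rw [hB, mem_iUnion]
      refine ⟨i, mem_iUnion.2 ⟨m, ?_⟩⟩
      rw [mem_singleton_iff]
      linarith
  have h1 : t ∈ closure Bᶜ := hdense t
  have h2 := image_closure_subset_closure_image (s := Bᶜ) (fibre_cont hψ hflow x)
    (mem_image_of_mem _ h1)
  refine closure_mono ?_ h2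
  rintro _ ⟨t0, ht0, rfl⟩
  exact hcl t0 ht0

end

end Q71.CC
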