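import Pool.Agent.Q71.CC.Core
import Pool.Agent.TH290.CL.Rec

/-!
# Diffeomorphisms commuting with a circle action
-/

set_option autoImplicit false
set_option linter.unusedSectionVars false

open scoped Manifold ContDiff Topology
open Filter Set Metric

universe u v

namespace Q71.CC

open Pool.Agent.H718R2.G Pool.Agent.W564.SC Pool.Agent.TH290.CL Pool.Agent.Q100.Spec

section semigroup
variable {S : Set ℝ} (hS : IsClosed S) (hadd : ∀ a ∈ S, ∀ b ∈ S, a + b ∈ S)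
  (hint : ∀ a ∈ S, ∀ m : ℤ, a + m ∈ S)

include hadd in
theorem mul_mem {a : ℝ} (ha : a ∈ S) (k : ℕ) : ((k : ℝ) + 1) * a ∈ S := by
  induction k with
  | zero => simpa using ha
  | succ k ih =>
    have := hadd _ ih _ ha
    have e : ((k : ℝ) + 1) * a + a = (((k + 1 : ℕ) : ℝ) + 1) * a := by push_cast; ring
    rwa [e] at this

include hS hadd hint in
theorem zero_mem (hne : S.Nonempty) : (0 : ℝ) ∈ S := by
  obtain ⟨a, ha⟩ := hne
  rw [← hS.closure_eq, Metric.mem_closure_iff]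
  intro ε hε
  obtain ⟨n, hn⟩ := exists_nat_one_div_lt hε
  obtain ⟨j, k, hk0, _, hjk⟩ := Real.exists_int_int_abs_mul_sub_le a (n := n + 1) (by omega)
  obtain ⟨k', rfl⟩ : ∃ k' : ℕ, k = (k' + 1 : ℕ) := ⟨(k - 1).toNat, by omega⟩
  refine ⟨_, hint _ (mul_mem hadd ha k') (-j), ?_⟩
  rw [dist_comm, Real.dist_eq, sub_zero]
  have e : ((k' : ℝ) + 1) * a + ((-j : ℤ) : ℝ) = (((k' + 1 : ℕ) : ℤ) : ℝ) * a - j := by
    push_cast
    ring
  rw [e]
  refine hjk.trans_lt (lt_of_le_of_lt ?_ hn)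
  apply one_div_le_one_div_of_le (by positivity)
  push_cast
  linarith

include hS hadd hint in
theorem neg_mem {a : ℝ} (ha : a ∈ S) : -a ∈ S := by
  have h0 : (0 : ℝ) ∈ S := zero_mem hS hadd hint ⟨a, ha⟩
  rw [← hS.closure_eq, Metric.mem_closure_iff]
  intro ε hε
  obtain ⟨n, hn⟩ := exists_nat_one_div_lt hε
  obtain ⟨j, k, hk0, _, hjk⟩ := Real.exists_int_int_abs_mul_sub_le a (n := n + 1) (by omega)
  obtain ⟨k', rfl⟩ : ∃ k' : ℕ, k = (k' + 1 : ℕ) := ⟨(k - 1).toNat, by omega⟩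
  have hk : (k' : ℝ) * a ∈ S := by
    rcases k' with _ | k'
    · simpa using h0
    · have := mul_mem hadd ha k'
      have e : ((k' + 1 : ℕ) : ℝ) * a = ((k' : ℝ) + 1) * a := by push_cast; ring
      rw [e]
      exact this
  refine ⟨_, hint _ hk (-j), ?_⟩
  rw [dist_comm, Real.dist_eq]
  have e : (k' : ℝ) * a + ((-j : ℤ) : ℝ) - -a = (((k' + 1 : ℕ) : ℤ) : ℝ) * a - j := by
    push_cast
    ring
  rw [e]
  refine hjk.trans_lt (lt_of_le_of_lt ?_ hn)
  apply one_div_le_one_div_of_le (by positivity)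
  push_cast
  linarith

include hS hadd hint in
/-- A proper closed sub-semigroup of `ℝ / ℤ` is finite cyclic. -/
theorem cyclic (hne : S.Nonempty) {t : ℝ} (ht : t ∉ S) :
    ∃ Q : ℕ, 1 ≤ Q ∧ ∀ a ∈ S, ∃ m : ℤ, (Q : ℝ) * a = m := by
  have h0 := zero_mem hS hadd hint hne
  let G : AddSubgroup ℝ :=
    { carrier := S
      zero_mem' := h0
      add_mem' := fun {a b} ha hb => hadd a ha b hb
      neg_mem' := fun {a} ha => neg_mem hS hadd hint ha }
  have hG : ∀ a, a ∈ G ↔ a ∈ S := fun a => Iff.rfl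
  rcases AddSubgroup.dense_or_cyclic G with h | ⟨a, ha⟩
  · exfalso
    apply ht
    have h1 : (G : Set ℝ) = S := rfl
    rw [h1, dense_iff_closure_eq, hS.closure_eq] at h
    rw [h]
    exact mem_univ t
  · have h1 : (1 : ℝ) ∈ G := by
      rw [hG]
      have := hint 0 h0 1
      simpa using this
    rw [ha, AddSubgroup.mem_closure_singleton] at h1
    obtain ⟨k, hk⟩ := h1
    rw [zsmul_eq_mul] at hk
    have hk0 : k ≠ 0 := by
      rintro rfl
      simp at hk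
    refine ⟨k.natAbs, Int.natAbs_pos.2 hk0, fun b hb => ?_⟩
    rw [← hG, ha, AddSubgroup.mem_closure_singleton] at hb
    obtain ⟨j, hj⟩ := hb
    rw [zsmul_eq_mul] at hj
    have h2 : (k : ℝ) * b = j := by
      rw [← hj]
      calc (k : ℝ) * (j * a) = j * (k * a) := by ring
        _ = j := by rw [hk, mul_one]
    rcases abs_choice k with h3 | h3
    · refine ⟨j, ?_⟩
      rw [← h2, Nat.cast_natAbs, h3]
    · refine ⟨-j, ?_⟩
      rw [Nat.cast_natAbs, h3]
      push_cast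
      linarith

end semigroup

section circle
variable {n : ℕ} {N : Type u} [TopologicalSpace N] [T2Space N] [CompactSpace N]
  [ChartedSpace (V n) N] [IsManifold (𝓡 n) ∞ N] {ψ : ℝ → N → N} (hψ : IsFlow n N ψ)
  {K : Set N} (hKψ : ∀ t, ∀ y ∈ K, ψ t y ∈ K) (hK1 : ∀ y ∈ K, ψ 1 y = y)
  {g : N → N} (hg : Continuous g) (hgK : ∀ y ∈ K, g y ∈ K)
  (hgc : ∀ t, ∀ y ∈ K, g (ψ t y) = ψ t (g y)) {z : N} (hz : z ∈ K)

include hψ in
theorem flow_cont (t : ℝ) : Continuous (ψ t) := (timeMap hψ ⊤ t).continuous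

include hψ hKψ hK1 in
theorem int_per (m : ℤ) : ∀ y ∈ K, ψ m y = y := by
  have h1 : ∀ k : ℕ, ∀ y ∈ K, ψ k y = y := by
    intro k
    induction k with
    | zero => intro y _; rw [Nat.cast_zero, hψ.zero]
    | succ k ih =>
      intro y hy
      rw [Nat.cast_succ, hψ.add, hK1 y hy, ih y hy]
  intro y hy
  rcases Int.eq_nat_or_neg m with ⟨k, rfl | rfl⟩
  · have := h1 k y hy
    rwa [Int.cast_natCast]
  · have h2 := h1 k (ψ ((-(k : ℤ) : ℤ) : ℝ) y) (hKψ _ y hy)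
    rw [← hψ.add] at h2
    have e : (k : ℝ) + ((-(k : ℤ) : ℤ) : ℝ) = 0 := by push_cast; ring
    rw [e, hψ.zero] at h2
    exact h2.symm

include hψ hKψ hK1 in
theorem per_int (t : ℝ) (m : ℤ) (y : N) (hy : y ∈ K) : ψ (t + m) y = ψ t y := by
  rw [hψ.add, int_per hψ hKψ hK1 m y hy]

include hgK in
theorem iter_mem (k : ℕ) : ∀ y ∈ K, g^[k] y ∈ K := by
  induction k with
  | zero => exact fun y hy => hy
  | succ k ih => intro y hy; rw [Function.iterate_succ_apply']; exact hgK _ (ih y hy)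

include hgK hgc in
theorem iter_comm (k : ℕ) (t : ℝ) : ∀ y ∈ K, g^[k] (ψ t y) = ψ t (g^[k] y) := by
  induction k with
  | zero => exact fun y hy => rfl
  | succ k ih =>
    intro y hy
    rw [Function.iterate_succ_apply', Function.iterate_succ_apply', ih y hy,
      hgc _ _ (iter_mem hgK k y hy)]

include hψ hKψ hK1 hg hgK hgc hz in
/-- A point which is recurrent for `ψ_α ∘ g` is recurrent for `g`. -/
theorem rec_shift (α : ℝ) (F : N → N) (hF : ∀ y ∈ K, F y = ψ α (g y))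
    (hrec : ∀ W ∈ 𝓝 z, ∃ m : ℕ, 1 ≤ m ∧ F^[m] z ∈ W) :
    ∀ W ∈ 𝓝 z, ∃ m : ℕ, 1 ≤ m ∧ g^[m] z ∈ W := by
  set Ω : Set N := closure {y | ∃ m : ℕ, g^[m + 1] z = y} with hΩ
  have hgΩ : ∀ m : ℕ, ∀ y ∈ Ω, g^[m] y ∈ Ω := by
    intro m y hy
    refine map_mem_closure (hg.iterate m) hy ?_
    rintro _ ⟨k, rfl⟩
    exact ⟨m + k, by
      rw [← Function.iterate_add_apply]
      rfl⟩
  set S : Set ℝ := {a | ψ a z ∈ Ω} with hS
  have hSc : IsClosed S := isClosed_closure.preimage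
    (hψ.smooth.continuous.comp (Continuous.prodMk_left z))
  have hadd : ∀ a ∈ S, ∀ b ∈ S, a + b ∈ S := by
    intro a ha b hb
    show ψ (a + b) z ∈ Ω
    rw [hψ.add]
    refine closure_minimal ?_ isClosed_closure (map_mem_closure (t := ψ a '' {y | ∃ m : ℕ,
      g^[m + 1] z = y}) (flow_cont hψ a) hb (fun y hy => mem_image_of_mem _ hy))
    rintro _ ⟨_, ⟨k, rfl⟩, rfl⟩
    rw [← iter_comm hgK hgc _ _ z hz]
    exact hgΩ _ _ ha
  have hint : ∀ a ∈ S, ∀ m : ℤ, a + m ∈ S := by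
    intro a ha m
    show ψ (a + m) z ∈ Ω
    rw [per_int hψ hKψ hK1 _ _ _ hz]
    exact ha
  have hFm : ∀ m : ℕ, F^[m] z = ψ (m * α) (g^[m] z) := by
    intro m
    induction m with
    | zero => rw [Nat.cast_zero, zero_mul, hψ.zero]; rfl
    | succ m ih =>
      rw [Function.iterate_succ_apply', ih, hF _ (hKψ _ _ (iter_mem hgK m z hz)),
        hgc _ _ (iter_mem hgK m z hz), ← hψ.add, Function.iterate_succ_apply' g]
      congr 1
      push_cast
      ring
  have hne : S.Nonempty := by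
    by_contra hcon
    rw [Set.not_nonempty_iff_eq_empty] at hcon
    set P : Set N := (fun q : ℝ × N => ψ q.1 q.2) '' (Icc (0 : ℝ) 1 ×ˢ Ω) with hP
    have hPc : IsClosed P := ((isCompact_Icc.prod isClosed_closure.isCompact).image
      hψ.smooth.continuous).isClosed
    have hzP : z ∉ P := by
      rintro ⟨⟨t, y⟩, ⟨_, hy⟩, h1⟩
      have h2 : ψ t y = z := h1
      have h3 : -t ∈ S := by
        show ψ (-t) z ∈ Ω
        rw [← h2, ← hψ.add, neg_add_cancel, hψ.zero]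
        exact hy
      rw [hcon] at h3
      exact h3
    obtain ⟨m, hm, hmP⟩ := hrec Pᶜ (hPc.isOpen_compl.mem_nhds hzP)
    apply hmP
    refine ⟨(Int.fract (m * α), g^[m] z), ⟨⟨Int.fract_nonneg _, (Int.fract_lt_one _).le⟩,
      subset_closure ⟨m - 1, by rw [Nat.sub_add_cancel hm]⟩⟩, ?_⟩
    show ψ (Int.fract (m * α)) (g^[m] z) = F^[m] z
    rw [hFm, ← per_int hψ hKψ hK1 (Int.fract (m * α)) ⌊m * α⌋ _ (iter_mem hgK m z hz),
      Int.fract_add_floor]
  have h0 : (0 : ℝ) ∈ S := zero_mem hSc hadd hint hne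
  have h1 : z ∈ Ω := by
    have h2 : ψ 0 z ∈ Ω := h0
    rwa [hψ.zero] at h2
  intro W hW
  obtain ⟨_, hy, ⟨m, rfl⟩⟩ := mem_closure_iff_nhds.1 h1 W hW
  exact ⟨m + 1, by omega, hy⟩

end circle

end Q71.CC
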