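import Pool.Agent.Q71.CC.Equi

/-!
# Closing at points with unsaturated orbit closures
-/

set_option autoImplicit false
set_option linter.unusedSectionVars false

open scoped Manifold ContDiff Topology
open Filter Set Metric

universe u v

namespace Q71.CC

open Pool.Agent.H718R2.G Pool.Agent.W564.SC Pool.Agent.TH290.CL Pool.Agent.Q100.Spec
open Pool.Agent.TH382.QC (orbit ClosableAt)

section
variable {N : Type u} [TopologicalSpace N] (g : N ≃ₜ N) (z : N)

theorem orbit_self : z ∈ orbit g z := ⟨0, Or.inl rfl⟩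

theorem orbit_fwd {y : N} (hy : y ∈ orbit g z) : g y ∈ orbit g z := by
  obtain ⟨j, hj | hj⟩ := hy
  · exact ⟨j + 1, Or.inl (by rw [Function.iterate_succ_apply', hj])⟩
  · rcases j with _ | j
    · exact ⟨1, Or.inl (by
        have h1 : y = z := hj
        rw [h1]
        rfl)⟩
    · exact ⟨j, Or.inr (by rw [← Function.iterate_succ_apply, hj])⟩

theorem orbit_bwd {y : N} (hy : y ∈ orbit g z) : g.symm y ∈ orbit g z := by
  obtain ⟨j, hj | hj⟩ := hy
  · rcases j with _ | j
    · refine ⟨1, Or.inr ?_⟩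
      have h1 : z = y := hj
      rw [h1]
      exact g.apply_symm_apply y
    · refine ⟨j, Or.inl ?_⟩
      rw [← hj, Function.iterate_succ_apply', g.symm_apply_apply]
  · refine ⟨j + 1, Or.inr ?_⟩
    rw [Function.iterate_succ_apply, g.apply_symm_apply, hj]

theorem oc_fwd {y : N} (hy : y ∈ closure (orbit g z)) : g y ∈ closure (orbit g z) :=
  map_mem_closure g.continuous hy fun _ h => orbit_fwd g z h

theorem oc_bwd {y : N} (hy : y ∈ closure (orbit g z)) : g.symm y ∈ closure (orbit g z) :=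
  map_mem_closure g.symm.continuous hy fun _ h => orbit_bwd g z h

theorem iter_mem' {g : N → N} {K : Set N} (hgK : ∀ y ∈ K, g y ∈ K) (k : ℕ) :
    ∀ y ∈ K, g^[k] y ∈ K := by
  induction k with
  | zero => exact fun y hy => hy
  | succ k ih => intro y hy; rw [Function.iterate_succ_apply']; exact hgK _ (ih y hy)

theorem orbit_sub {K : Set N} (hK : ∀ y ∈ K, g y ∈ K) (hK' : ∀ y ∈ K, g.symm y ∈ K) (hz : z ∈ K) :
    orbit g z ⊆ K := by
  rintro y ⟨j, hj | hj⟩
  · rw [← hj]
    exact iter_mem' hK j z hz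
  · have h1 : y = g.symm^[j] z := by
      rw [← hj]
      exact (Function.LeftInverse.iterate (f := g) (g := g.symm) g.symm_apply_apply j y).symm
    rw [h1]
    exact iter_mem' hK' j z hz

end

section
variable {n : ℕ} {N : Type u} [TopologicalSpace N] [T2Space N] [CompactSpace N]
  [ChartedSpace (V n) N] [IsManifold (𝓡 n) ∞ N] {ψ : ℝ → N → N}

/-- The circle coordinate: `(y, c) ↦ ψ_c y` -/
noncomputable def circ {M : Set N} (hM1 : ∀ y : M, Function.Periodic (fun t => ψ t (y : N)) 1)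
    (a : M × AddCircle (1 : ℝ)) : N := (hM1 a.1).lift a.2

theorem circ_coe {M : Set N} (hM1 : ∀ y : M, Function.Periodic (fun t => ψ t (y : N)) 1) (y : M)
    (t : ℝ) : circ hM1 (y, (t : AddCircle (1 : ℝ))) = ψ t y := rfl

theorem equi_K {r : ℕ∞} (hr : 1 ≤ r) (F : DiffM n N r) (hψ : IsFlow n N ψ) {K : Set N}
    (hKc : IsClosed K) (hKF : ∀ y ∈ K, F y ∈ K) (hKF' : ∀ y ∈ K, F.symm y ∈ K)
    (hKψ : ∀ t, ∀ y ∈ K, ψ t y ∈ K) (hK1 : ∀ y ∈ K, ψ 1 y = y)
    (hcomm : ∀ t, ∀ y ∈ K, F (ψ t y) = ψ t (F y)) {z : N} (hz : z ∈ K)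
    (hrec : (∀ W ∈ 𝓝 z, ∃ m : ℕ, 1 ≤ m ∧ F^[m] z ∈ W) ∨
      (∀ W ∈ 𝓝 z, ∃ m : ℕ, 1 ≤ m ∧ F.symm^[m] z ∈ W)) (α t1 : ℝ)
    (ht1 : ψ t1 z ∉ closure (orbit (fun y => ψ (-α) (F y)) z)) : ClosableAt n N r F z := by
  classical
  set g : N ≃ₜ N := (famH hψ F (-α)).toHomeomorph with hg
  have hgy : ∀ y, g y = ψ (-α) (F y) := fun y => rfl
  have hgs : ∀ y, g.symm y = F.symm (ψ α y) := by
    intro y
    apply g.injective
    rw [g.apply_symm_apply, hgy]
    rw [F.apply_symm_apply, ← hψ.add, neg_add_cancel, hψ.zero]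
  have hgK : ∀ y ∈ K, g y ∈ K := fun y hy => hKψ _ _ (hKF y hy)
  have hgK' : ∀ y ∈ K, g.symm y ∈ K := fun y hy => by
    rw [hgs]
    exact hKF' _ (hKψ _ _ hy)
  have hgc : ∀ t, ∀ y ∈ K, g (ψ t y) = ψ t (g y) := by
    intro t y hy
    rw [hgy, hgy, hcomm t y hy, ← hψ.add, ← hψ.add, add_comm]
  have hcomm' : ∀ t, ∀ y ∈ K, g.symm (ψ t y) = ψ t (g.symm y) := by
    intro t y hy
    apply g.injective
    rw [g.apply_symm_apply, hgc _ _ (hgK' y hy), g.apply_symm_apply]
  have hFg : ∀ y ∈ K, F y = ψ α (g y) := by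
    intro y _
    rw [hgy, ← hψ.add, add_neg_cancel, hψ.zero]
  have hFsg : ∀ y ∈ K, F.symm y = ψ (-α) (g.symm y) := by
    intro y hy
    rw [← hcomm' _ _ hy, hgs, ← hψ.add, add_neg_cancel, hψ.zero]
  set M : Set N := closure (orbit g z) with hM
  have hMc : IsClosed M := isClosed_closure
  have hMK : M ⊆ K := closure_minimal (orbit_sub g z hgK hgK' hz) hKc
  have hzM : z ∈ M := subset_closure (orbit_self g z)
  have hM1 : ∀ y : M, Function.Periodic (fun t => ψ t (y : N)) 1 := by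
    intro y t
    show ψ (t + 1) (y : N) = ψ t y
    rw [hψ.add, hK1 _ (hMK y.2)]
  -- the group
  set S : Set ℝ := {a | ψ a z ∈ M} with hS
  have hSc : IsClosed S := hMc.preimage (hψ.smooth.continuous.comp (Continuous.prodMk_left z))
  have hadd : ∀ a ∈ S, ∀ b ∈ S, a + b ∈ S := by
    intro a ha b hb
    show ψ (a + b) z ∈ M
    rw [hψ.add]
    refine closure_minimal ?_ hMc (map_mem_closure (t := ψ a '' orbit g z)
      (flow_cont hψ a) hb (fun y hy => mem_image_of_mem _ hy))
    rintro _ ⟨y, ⟨k, hk | hk⟩, rfl⟩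
    · rw [← hk, ← iter_comm hgK hgc _ _ z hz]
      exact iter_mem (K := M) (fun y hy => oc_fwd g z hy) k _ ha
    · have h1 : y = g.symm^[k] z := by
        rw [← hk]
        exact (Function.LeftInverse.iterate (f := g) (g := g.symm) g.symm_apply_apply k y).symm
      rw [h1, ← iter_comm hgK' hcomm' _ _ z hz]
      exact iter_mem (K := M) (fun y hy => oc_bwd g z hy) k _ ha
  have hint : ∀ a ∈ S, ∀ m : ℤ, a + m ∈ S := by
    intro a ha m
    show ψ (a + m) z ∈ M
    rw [per_int hψ hKψ hK1 _ _ _ hz]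
    exact ha
  have h0 : (0 : ℝ) ∈ S := by
    show ψ 0 z ∈ M
    rw [hψ.zero]
    exact hzM
  obtain ⟨Q, hQ, hQS⟩ := cyclic hSc hadd hint ⟨0, h0⟩ (t := t1) ht1
  -- the coordinates
  set f : M → M := fun y => ⟨g y, oc_fwd g z y.2⟩ with hf
  have hfc : Continuous f := (g.continuous.comp continuous_subtype_val).subtype_mk _
  have hfi : ∀ (m : ℕ) (y : M), ((f^[m] y : M) : N) = g^[m] y := by
    intro m y
    induction m with
    | zero => rfl
    | succ m ih => rw [Function.iterate_succ_apply', Function.iterate_succ_apply', ← ih]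
  set z0 : M := ⟨z, hzM⟩ with hz0
  have hret : LongRet f z0 := by
    apply long_returns f hfc
    intro W hW
    rw [nhds_subtype_eq_comap, mem_comap] at hW
    obtain ⟨W0, hW0, hW0W⟩ := hW
    rcases hrec with h | h
    · obtain ⟨m, hm, hmW⟩ := rec_shift hψ hKψ hK1 g.continuous hgK hgc hz α F hFg h W0 hW0
      have hzW : z ∈ W0 := mem_of_mem_nhds hW0
      refine ⟨m, hm, z0, hW0W hzW, hW0W ?_⟩
      show ((f^[m] z0 : M) : N) ∈ W0
      rw [hfi]
      exact hmW
    · obtain ⟨m, hm, hmW⟩ := rec_shift hψ hKψ hK1 g.symm.continuous hgK' hcomm' hz (-α) F.symm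
        hFsg h W0 hW0
      have h1 : g.symm^[m] z ∈ M := iter_mem (K := M) (fun y hy => oc_bwd g z hy) m _ hzM
      refine ⟨m, hm, ⟨g.symm^[m] z, h1⟩, hW0W hmW, hW0W ?_⟩
      show ((f^[m] ⟨g.symm^[m] z, h1⟩ : M) : N) ∈ W0
      rw [hfi]
      show g^[m] (g.symm^[m] z) ∈ W0
      rw [Function.LeftInverse.iterate (f := g.symm) (g := g) g.apply_symm_apply m z]
      exact mem_of_mem_nhds hW0
  have hflow : ∀ (t : ℝ) (x : M) (c : AddCircle (1 : ℝ)), ψ t (circ hM1 (x, c)) =
      circ hM1 (x, c + (t : AddCircle (1 : ℝ))) := by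
    intro t x c
    obtain ⟨s, rfl⟩ := QuotientAddGroup.mk_surjective c
    have h3 : (QuotientAddGroup.mk s : AddCircle (1 : ℝ)) = (s : AddCircle (1 : ℝ)) := rfl
    rw [h3, ← AddCircle.coe_add, circ_coe, circ_coe, ← hψ.add, add_comm]
  have hFc : ∀ (x : M) (t : ℝ), F (circ hM1 (x, (t : AddCircle (1 : ℝ)))) = circ hM1 (f x,
      (((CircleDeg1Lift.translate (Multiplicative.ofAdd α) : CircleDeg1Lift) t : ℝ) :
        AddCircle (1 : ℝ))) := by
    intro x t
    rw [circ_coe, circ_coe, CircleDeg1Lift.translate_apply, hcomm _ _ (hMK x.2), hFg _ (hMK x.2),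
      ← hψ.add, add_comm]
  have hgood : GoodCoord Q (circ hM1) z0 0 := by
    constructor
    · have e : (fun x' : M => circ hM1 (x', 0)) = fun x' : M => (x' : N) := by
        funext x'
        have := circ_coe hM1 x' 0
        rw [hψ.zero] at this
        exact this
      rw [e]
      exact continuous_subtype_val.continuousAt
    · have e : circ hM1 (z0, 0) = z := by
        have := circ_coe hM1 z0 0
        rw [hψ.zero] at this
        exact this
      rw [e]
      intro V hV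
      rw [mem_map, mem_comap]
      obtain ⟨V', hV', hV'o, h0V'⟩ := _root_.mem_nhds_iff.1 hV
      have hcQ : Continuous fun t : ℝ => Q • (t : AddCircle (1 : ℝ)) :=
        (AddCircle.continuous_mk' (1 : ℝ)).nsmul Q
      set B : Set (ℝ × N) := (Icc (0 : ℝ) 1 ∩ (fun t : ℝ => Q • (t : AddCircle (1 : ℝ))) ⁻¹' V'ᶜ) ×ˢ M
        with hB
      have hBc : IsCompact B :=
        (isCompact_Icc.inter_right (hV'o.isClosed_compl.preimage hcQ)).prod hMc.isCompact
      have hPc : IsClosed ((fun q : ℝ × N => ψ q.1 q.2) '' B) :=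
        (hBc.image hψ.smooth.continuous).isClosed
      refine ⟨((fun q : ℝ × N => ψ q.1 q.2) '' B)ᶜ, hPc.isOpen_compl.mem_nhds ?_, ?_⟩
      · rintro ⟨⟨t, y⟩, ⟨⟨_, ht⟩, hy⟩, h1⟩
        have h2 : ψ t y = z := h1
        have h3 : -t ∈ S := by
          show ψ (-t) z ∈ M
          rw [← h2, ← hψ.add, neg_add_cancel, hψ.zero]
          exact hy
        obtain ⟨m, hm⟩ := hQS _ h3
        apply ht
        have h4 : Q • (t : AddCircle (1 : ℝ)) = 0 := by
          rw [← AddCircle.coe_nsmul, AddCircle.coe_eq_zero_iff]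
          refine ⟨-m, ?_⟩
          rw [nsmul_eq_mul, zsmul_eq_mul, mul_one]
          push_cast
          linarith
        show Q • (t : AddCircle (1 : ℝ)) ∈ V'
        rw [h4]
        exact h0V'
      · rintro ⟨x', c'⟩ hx'
        obtain ⟨s, rfl⟩ := QuotientAddGroup.mk_surjective c'
        have h3 : (QuotientAddGroup.mk s : AddCircle (1 : ℝ)) =
            ((Int.fract s : ℝ) : AddCircle (1 : ℝ)) := by
          have h4 : ((⌊s⌋ : ℝ) : AddCircle (1 : ℝ)) = 0 := by
            rw [AddCircle.coe_eq_zero_iff]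
            exact ⟨⌊s⌋, by simp⟩
          calc (QuotientAddGroup.mk s : AddCircle (1 : ℝ)) = ((Int.fract s + ⌊s⌋ : ℝ) :
                AddCircle (1 : ℝ)) := by rw [Int.fract_add_floor]
            _ = _ := by rw [AddCircle.coe_add, h4, add_zero]
        rw [h3] at hx' ⊢
        show Q • (((Int.fract s : ℝ) : AddCircle (1 : ℝ)) - 0) ∈ V
        rw [sub_zero]
        by_contra hcon
        apply hx'
        rw [circ_coe]
        refine ⟨(Int.fract s, (x' : N)), ⟨⟨⟨Int.fract_nonneg _, (Int.fract_lt_one _).le⟩, ?_⟩, x'.2⟩,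
          rfl⟩
        intro h5
        exact hcon (hV' h5)
  have hmain := main hr F hψ (Θ := circ hM1) (f := f)
    (CircleDeg1Lift.translate (Multiplicative.ofAdd α) : CircleDeg1Lift)
    (by
      have e : ((CircleDeg1Lift.translate (Multiplicative.ofAdd α) : CircleDeg1Lift) : ℝ → ℝ) =
          fun t => α + t := by
        funext t
        exact CircleDeg1Lift.translate_apply α t
      rw [e]
      fun_prop)
    (notLocked_translate α) hflow hFc z0 hret 0 hQ hgood
  have e : circ hM1 (z0, 0) = z := by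
    have := circ_coe hM1 z0 0
    rw [hψ.zero] at this
    exact this
  rwa [e] at hmain

/-- **Closing for diffeomorphisms commuting with a circle action.** Let `z` be a recurrent point of
`F`, lying on a closed orbit of period `1` of a smooth flow `ψ` which commutes with `F` along the orbit
of `z`. If for some `α` the orbit closure of `z` under `ψ_{-α} ∘ F` does not contain the closed orbit
of `z`, then `F` can be closed at `z`. -/
theorem equi {r : ℕ∞} (hr : 1 ≤ r) (F : DiffM n N r) (hψ : IsFlow n N ψ) {z : N} (h1 : ψ 1 z = z)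
    (hcomm : ∀ y ∈ orbit F z, ∀ t, F (ψ t y) = ψ t (F y)) (hrec : IsRec F.toHomeomorph z) (α t1 : ℝ)
    (ht1 : ψ t1 z ∉ closure (orbit (fun y => ψ (-α) (F y)) z)) : ClosableAt n N r F z := by
  have hfwd : ∀ y ∈ orbit F z, F y ∈ orbit F z := fun y hy => orbit_fwd F.toHomeomorph z hy
  have hbwd : ∀ y ∈ orbit F z, F.symm y ∈ orbit F z := fun y hy => orbit_bwd F.toHomeomorph z hy
  have hcj : ∀ (j : ℕ) (t : ℝ), ∀ y ∈ orbit F z, F^[j] (ψ t y) = ψ t (F^[j] y) := by
    intro j t
    induction j with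
    | zero => exact fun y _ => rfl
    | succ j ih =>
      intro y hy
      rw [Function.iterate_succ_apply', ih y hy, hcomm _ (iter_mem' hfwd j y hy),
        Function.iterate_succ_apply' F]
  have hper : ∀ y ∈ orbit F z, ψ 1 y = y := by
    intro y hy
    obtain ⟨j, hj | hj⟩ := id hy
    · rw [← hj, ← hcj j 1 z ⟨0, Or.inl rfl⟩, h1]
    · have h2 := hcj j 1 y hy
      rw [hj, h1, ← hj] at h2
      exact F.injective.iterate j h2
  set K0 : Set N := {y | ∃ t : ℝ, ∃ y' ∈ orbit F z, ψ t y' = y} with hK0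
  have c0 : ∀ y ∈ K0, ∀ t, F (ψ t y) = ψ t (F y) := by
    rintro _ ⟨s, y', hy', rfl⟩ t
    rw [← hψ.add, hcomm y' hy', hcomm y' hy', hψ.add]
  have hzK0 : z ∈ K0 := ⟨0, z, ⟨0, Or.inl rfl⟩, hψ.zero z⟩
  refine equi_K hr F hψ (K := closure K0) isClosed_closure ?_ ?_ ?_ ?_ ?_ (subset_closure hzK0)
    (rec_cases _ _ hrec) α t1 ht1
  · intro y hy
    refine map_mem_closure F.continuous hy ?_
    rintro _ ⟨t, y', hy', rfl⟩
    exact ⟨t, F y', hfwd y' hy', (hcomm y' hy' t).symm⟩
  · intro y hy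
    refine map_mem_closure F.symm.continuous hy ?_
    rintro _ ⟨t, y', hy', rfl⟩
    refine ⟨t, F.symm y', hbwd y' hy', ?_⟩
    apply F.injective
    change F (ψ t (F.symm y')) = F (F.symm (ψ t y'))
    rw [hcomm _ (hbwd y' hy'), F.apply_symm_apply, F.apply_symm_apply]
  · intro t y hy
    refine map_mem_closure (flow_cont hψ t) hy ?_
    rintro _ ⟨s, y', hy', rfl⟩
    exact ⟨t + s, y', hy', hψ.add t s y'⟩
  · intro y hy
    refine closure_minimal (s := K0) (t := {y | ψ 1 y = y}) ?_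
      (isClosed_eq (flow_cont hψ 1) continuous_id) hy
    rintro _ ⟨t, y', hy', rfl⟩
    show ψ 1 (ψ t y') = ψ t y'
    rw [← hψ.add, add_comm, hψ.add, hper y' hy']
  · intro t y hy
    refine closure_minimal (s := K0) (t := {y | F (ψ t y) = ψ t (F y)}) ?_
      (isClosed_eq (F.continuous.comp (flow_cont hψ t)) ((flow_cont hψ t).comp F.continuous)) hy
    exact fun y hy => c0 y hy t

end

end Q71.CC
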