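import Pool.Agent.Q71.CC.Core

/-!
# Circle extensions with bounded deviations
-/

set_option autoImplicit false
set_option linter.unusedSectionVars false

open scoped Manifold ContDiff Topology
open Filter Set Metric

universe u v

namespace Q71.CC

open Pool.Agent.H718R2.G Pool.Agent.W564.SC Pool.Agent.TH290.CL Pool.Agent.Q100.Spec

/-- The continuity points of a bounded supremum of continuous functions are dense. -/
theorem dense_cont {Y ι : Type*} [TopologicalSpace Y] [BaireSpace Y] [Nonempty ι] (g : ι → Y → ℝ)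
    (hg : ∀ i, Continuous (g i)) {C : ℝ} (hC : ∀ i y, g i y ≤ C) :
    Dense {y | ContinuousAt (fun y => ⨆ i, g i y) y} := by
  set V : Y → ℝ := fun y => ⨆ i, g i y with hV
  have hbdd : ∀ y, BddAbove (range fun i => g i y) := fun y => ⟨C, by
    rintro _ ⟨i, rfl⟩
    exact hC i y⟩
  have hVC : ∀ y, V y ≤ C := fun y => ciSup_le fun i => hC i y
  set O : ℕ → Set Y := fun k => ⋃₀ {W | IsOpen W ∧ ∀ a ∈ W, ∀ b ∈ W, V a - V b ≤ 1 / ((k : ℝ) + 1)}
    with hO
  have hOo : ∀ k, IsOpen (O k) := fun k => isOpen_sUnion fun W hW => hW.1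
  have hOd : ∀ k, Dense (O k) := by
    intro k
    rw [dense_iff_inter_open]
    intro W0 hW0 hne
    have hk : (0 : ℝ) < 1 / ((k : ℝ) + 1) := by positivity
    have hbd : BddAbove (V '' W0) := ⟨C, by
      rintro _ ⟨y, _, rfl⟩
      exact hVC y⟩
    obtain ⟨_, ⟨y1, hy1, rfl⟩, hy2⟩ := exists_lt_of_lt_csSup (hne.image V)
      (show sSup (V '' W0) - 1 / ((k : ℝ) + 1) < sSup (V '' W0) by linarith)
    obtain ⟨i, hi⟩ := exists_lt_of_lt_ciSup hy2
    have hi' : sSup (V '' W0) - 1 / ((k : ℝ) + 1) < g i y1 := hi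
    refine ⟨y1, hy1, mem_sUnion.2 ⟨W0 ∩ {y | sSup (V '' W0) - 1 / ((k : ℝ) + 1) < g i y}, ⟨?_, ?_⟩,
      hy1, hi'⟩⟩
    · exact hW0.inter (isOpen_lt continuous_const (hg i))
    · rintro a ⟨ha, _⟩ b ⟨_, hb⟩
      have h1 : V a ≤ sSup (V '' W0) := le_csSup hbd (mem_image_of_mem _ ha)
      have h2 : g i b ≤ V b := le_ciSup (hbdd b) i
      have h3 : sSup (V '' W0) - 1 / ((k : ℝ) + 1) < g i b := hb
      linarith
  refine (dense_iInter_of_isOpen_nat hOo hOd).mono fun y hy => ?_
  show ContinuousAt V y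
  rw [mem_iInter] at hy
  rw [ContinuousAt, Metric.tendsto_nhds]
  intro ε hε
  obtain ⟨k, hk⟩ := exists_nat_one_div_lt hε
  obtain ⟨W, ⟨hW, hWV⟩, hyW⟩ := mem_sUnion.1 (hy k)
  filter_upwards [hW.mem_nhds hyW] with b hb
  rw [Real.dist_eq, abs_lt]
  have h1 := hWV b hb y hyW
  have h2 := hWV y hyW b hb
  constructor <;> linarith

section cocycle
variable {X : Type v} [TopologicalSpace X] (f : X ≃ₜ X) (τ : X → ℝ) (α : ℝ)

/-- deviation of the Birkhoff sums -/
noncomputable def D (n : ℕ) (y : X) : ℝ := bsum f τ n y - n * α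

theorem D_zero (y : X) : D f τ α 0 y = 0 := by simp [D, bsum_zero]

theorem D_succ (n : ℕ) (y : X) : D f τ α (n + 1) y = D f τ α n y + (τ (f^[n] y) - α) := by
  rw [D, D, bsum_succ]
  push_cast
  ring

theorem D_add (i j : ℕ) (y : X) : D f τ α (i + j) y = D f τ α i y + D f τ α j (f^[i] y) := by
  rw [D, D, D, bsum_add]
  push_cast
  ring

theorem D_succ' (n : ℕ) (y : X) : D f τ α (n + 1) y = (τ y - α) + D f τ α n (f y) := by
  rw [add_comm n 1, D_add, Function.iterate_one, D_succ, D_zero]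
  simp

theorem D_cont (hτ : Continuous τ) (n : ℕ) : Continuous (D f τ α n) := by
  have : Continuous (bsum f τ n) := by
    unfold bsum
    exact continuous_finsetSum _ fun j _ => hτ.comp (f.continuous.iterate j)
  exact this.sub continuous_const

/-- the deviations seen from `y`, at all times -/
noncomputable def E (p : ℕ × ℕ) (y : X) : ℝ :=
  D f τ α p.1 (f.symm^[p.2] y) - D f τ α p.2 (f.symm^[p.2] y)

theorem iter_symm (m : ℕ) (y : X) : f^[m] (f.symm^[m] y) = y :=
  Function.LeftInverse.iterate (f := f.symm) (g := f) (fun y => f.apply_symm_apply y) m y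

theorem symm_iter (m : ℕ) (y : X) : f.symm^[m] (f^[m] y) = y :=
  Function.LeftInverse.iterate (f := f) (g := f.symm) (fun y => f.symm_apply_apply y) m y

theorem E_cont (hτ : Continuous τ) (p : ℕ × ℕ) : Continuous (E f τ α p) :=
  ((D_cont f τ α hτ _).comp (f.symm.continuous.iterate _)).sub
    ((D_cont f τ α hτ _).comp (f.symm.continuous.iterate _))

theorem E_succ (n m : ℕ) (y : X) : E f τ α (n, m + 1) (f y) = E f τ α (n, m) y - (τ y - α) := by
  have h1 : f.symm^[m + 1] (f y) = f.symm^[m] y := by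
    rw [Function.iterate_succ_apply, f.symm_apply_apply]
  simp only [E]
  rw [h1, D_succ, iter_symm]
  ring

theorem E_zero (n : ℕ) (y : X) : E f τ α (n, 0) (f y) = E f τ α (n + 1, 0) y - (τ y - α) := by
  simp only [E, Function.iterate_zero, id_eq, D_zero]
  rw [D_succ']
  ring

theorem sup_eq (y : X) (C : ℝ) (h : ∀ p, E f τ α p y ≤ C) (h' : ∀ p, E f τ α p (f y) ≤ C) :
    (⨆ p, E f τ α p (f y)) = (⨆ p, E f τ α p y) - (τ y - α) := by
  have b1 : BddAbove (range fun p => E f τ α p y) := ⟨C, by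
    rintro _ ⟨i, rfl⟩
    exact h i⟩
  have b2 : BddAbove (range fun p => E f τ α p (f y)) := ⟨C, by
    rintro _ ⟨i, rfl⟩
    exact h' i⟩
  apply le_antisymm
  · apply ciSup_le
    rintro ⟨n, m⟩
    rcases m with _ | m
    · rw [E_zero]
      have := le_ciSup b1 (n + 1, 0)
      linarith
    · rw [E_succ]
      have := le_ciSup b1 (n, m)
      linarith
  · rw [sub_le_iff_le_add]
    apply ciSup_le
    rintro ⟨n, m⟩
    have h1 := E_succ f τ α n m y
    have := le_ciSup b2 (n, m + 1)
    linarith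

end cocycle

section
variable {n : ℕ} {N : Type u} [TopologicalSpace N] [T2Space N] [CompactSpace N]
  [ChartedSpace (V n) N] [IsManifold (𝓡 n) ∞ N] {ψ : ℝ → N → N}
  {X : Type v} [TopologicalSpace X]

/-- coordinates changed by a function which is continuous at a point -/
theorem comap_shear {Θ : X × AddCircle (1 : ℝ) → N} (hΘ : Topology.IsEmbedding Θ)
    {v : X → AddCircle (1 : ℝ)} {y : X} (hv : ContinuousAt v y) (c : AddCircle (1 : ℝ)) :
    comap (fun a : X × AddCircle (1 : ℝ) => Θ (a.1, a.2 + v a.1)) (𝓝 (Θ (y, c + v y))) =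
      𝓝 (y, c) := by
  set S : X × AddCircle (1 : ℝ) → X × AddCircle (1 : ℝ) := fun a => (a.1, a.2 + v a.1) with hS
  set T : X × AddCircle (1 : ℝ) → X × AddCircle (1 : ℝ) := fun a => (a.1, a.2 - v a.1) with hT
  have e : (fun a : X × AddCircle (1 : ℝ) => Θ (a.1, a.2 + v a.1)) = Θ ∘ S := rfl
  have e2 : Θ (y, c + v y) = Θ (S (y, c)) := rfl
  rw [e, ← comap_comap, e2, ← hΘ.isInducing.nhds_eq_comap]
  have hv1 : ∀ c' : AddCircle (1 : ℝ), ContinuousAt (fun a : X × AddCircle (1 : ℝ) => v a.1) (y, c') :=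
    fun c' => ContinuousAt.comp (f := fun a : X × AddCircle (1 : ℝ) => a.1) (g := v) hv
      continuous_fst.continuousAt
  have hSc : Tendsto S (𝓝 (y, c)) (𝓝 (S (y, c))) :=
    continuous_fst.continuousAt.prodMk (continuous_snd.continuousAt.add (hv1 c))
  have hTc : Tendsto T (𝓝 (S (y, c))) (𝓝 (T (S (y, c)))) :=
    continuous_fst.continuousAt.prodMk (continuous_snd.continuousAt.sub (hv1 _))
  have hTS : ∀ a, T (S a) = a := fun a => by simp [hS, hT]
  apply le_antisymm
  · have h1 : Tendsto (fun a => T (S a)) (comap S (𝓝 (S (y, c)))) (𝓝 (T (S (y, c)))) :=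
      hTc.comp tendsto_comap
    simp only [hTS] at h1
    exact tendsto_id'.1 h1
  · exact hSc.le_comap

/-- **Circle extensions with bounded deviations** -/
theorem ext_nw [T2Space X] [CompactSpace X] {r : ℕ∞} (hr : 1 ≤ r) (F : DiffM n N r)
    (hψ : IsFlow n N ψ) {Θ : X × AddCircle (1 : ℝ) → N} (hΘ : Topology.IsEmbedding Θ) (f : X ≃ₜ X)
    {τ : X → ℝ} (hτ : Continuous τ)
    (hflow : ∀ (t : ℝ) x (c : AddCircle (1 : ℝ)), ψ t (Θ (x, c)) = Θ (x, c + (t : AddCircle (1 : ℝ))))
    (hF : ∀ x (c : AddCircle (1 : ℝ)), F (Θ (x, c)) = Θ (f x, c + ((τ x : ℝ) : AddCircle (1 : ℝ))))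
    (hNW : ∀ y, NonWand f y) {α C : ℝ} (hdev : ∀ m y, |bsum f τ m y - m * α| ≤ C)
    (x : X) (c : AddCircle (1 : ℝ)) :
    Pool.Agent.TH382.QC.ClosableAt n N r F (Θ (x, c)) := by
  have hE : ∀ p y, E f τ α p y ≤ 2 * C := by
    intro p y
    have h1 := abs_le.1 (hdev p.1 (f.symm^[p.2] y))
    have h2 := abs_le.1 (hdev p.2 (f.symm^[p.2] y))
    show D f τ α p.1 (f.symm^[p.2] y) - D f τ α p.2 (f.symm^[p.2] y) ≤ _
    rw [D, D]
    linarith [h1.2, h2.1]
  have hdense := dense_cont (fun p => E f τ α p) (fun p => E_cont f τ α hτ p) hE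
  set W : X → ℝ := fun y => ⨆ p, E f τ α p y with hW
  have hWf : ∀ y, W (f y) = W y - (τ y - α) := fun y =>
    sup_eq f τ α y (2 * C) (fun p => hE p y) (fun p => hE p (f y))
  set v : X → AddCircle (1 : ℝ) := fun y => ((-W y : ℝ) : AddCircle (1 : ℝ)) with hv
  have hpt : ∀ y, ContinuousAt W y → ∀ c', Pool.Agent.TH382.QC.ClosableAt n N r F (Θ (y, c')) := by
    intro y hy c'
    have hvy : ContinuousAt v y :=
      ContinuousAt.comp (f := fun y => -W y) (g := fun t : ℝ => (t : AddCircle (1 : ℝ)))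
        (AddCircle.continuous_mk' (1 : ℝ)).continuousAt hy.neg
    have h1 := main hr F hψ (Θ := fun a : X × AddCircle (1 : ℝ) => Θ (a.1, a.2 + v a.1)) (f := f)
      (CircleDeg1Lift.translate (Multiplicative.ofAdd α) : CircleDeg1Lift)
      (by
        have e : ((CircleDeg1Lift.translate (Multiplicative.ofAdd α) : CircleDeg1Lift) : ℝ → ℝ) =
            fun t => α + t := by
          funext t
          exact CircleDeg1Lift.translate_apply α t
        rw [e]
        fun_prop)
      (notLocked_translate α)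
      (fun t x' c'' => by
        show ψ t (Θ (x', c'' + v x')) = Θ (x', c'' + (t : AddCircle (1 : ℝ)) + v x')
        rw [hflow]
        congr 2
        abel)
      (fun x' t => by
        show F (Θ (x', (t : AddCircle (1 : ℝ)) + v x')) = Θ (f x', _ + v (f x'))
        rw [hF, CircleDeg1Lift.translate_apply]
        congr 2
        rw [hv]
        simp only [hWf]
        rw [← AddCircle.coe_add, ← AddCircle.coe_add, ← AddCircle.coe_add]
        congr 1
        ring)
      y (long_returns f f.continuous y (hNW y)) (c' - v y) le_rfl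
      (GoodCoord.of_comap (comap_shear hΘ hvy _))
    simpa using h1
  apply Pool.Agent.TH382.HS.closable_of_limit
  intro U hU hFU
  refine ⟨F, hFU, ?_⟩
  have h1 : x ∈ closure {y | ContinuousAt W y} := hdense x
  have hc : Continuous fun y : X => Θ (y, c) := hΘ.continuous.comp (Continuous.prodMk_left c)
  have h2 := image_closure_subset_closure_image hc (mem_image_of_mem _ h1)
  refine closure_mono ?_ h2
  rintro _ ⟨y, hy, rfl⟩
  exact hpt y hy c

end

end Q71.CC
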