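import Mathlib

/-!
# Bottleneck orbits of circle maps with positive kicks
-/

set_option autoImplicit false

open Filter Set Topology

namespace Q71.CC

section
variable {G : ℝ → ℝ} (hm : Monotone G) (hc : Continuous G) (h1 : ∀ t, G (t + 1) = G t + 1)

include h1 in
theorem add_int (m : ℤ) (t : ℝ) : G (t + m) = G t + m := by
  have hn : ∀ (k : ℕ) (t : ℝ), G (t + k) = G t + k := by
    intro k
    induction k with
    | zero => intro t; simp
    | succ k ih => intro t; push_cast; rw [← add_assoc, h1, ih]; ring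
  rcases Int.eq_nat_or_neg m with ⟨k, rfl | rfl⟩
  · exact_mod_cast hn k t
  · have := hn k (t + ((-(k : ℤ) : ℤ) : ℝ))
    push_cast at this ⊢
    rw [neg_add_cancel_right] at this
    linarith

include h1 in
theorem iter_add_int (i : ℕ) (m : ℤ) (t : ℝ) : G^[i] (t + m) = G^[i] t + m := by
  induction i generalizing t with
  | zero => rfl
  | succ i ih => rw [Function.iterate_succ_apply, Function.iterate_succ_apply, add_int h1, ih]

include hm h1 in
theorem near (t : ℝ) : |G t - t| ≤ |G 0| + 1 := by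
  have e : t = Int.fract t + (⌊t⌋ : ℤ) := (Int.fract_add_floor t).symm
  have h2 : G t = G (Int.fract t) + (⌊t⌋ : ℤ) := by
    conv_lhs => rw [e]
    exact add_int h1 _ _
  have h3 : G 0 ≤ G (Int.fract t) := hm (Int.fract_nonneg t)
  have h4 : G (Int.fract t) ≤ G 0 + 1 := by
    rw [← h1 0]
    apply hm
    rw [zero_add]
    exact (Int.fract_lt_one t).le
  have h5 := Int.fract_nonneg t
  have h6 := Int.fract_lt_one t
  have h7 := abs_le.1 (le_refl |G 0|)
  have h8 : t - Int.fract t = (⌊t⌋ : ℝ) := Int.self_sub_fract t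
  rw [h2, abs_le]
  constructor <;> linarith [h7.1, h7.2]

include hm h1 in
theorem near_iter (i : ℕ) (t : ℝ) : |G^[i] t - t| ≤ i * (|G 0| + 1) := by
  induction i with
  | zero => simp
  | succ i ih =>
    rw [Function.iterate_succ_apply']
    have h2 := near hm h1 (G^[i] t)
    have h3 : G (G^[i] t) - t = (G (G^[i] t) - G^[i] t) + (G^[i] t - t) := by ring
    rw [h3]
    refine (abs_add_le _ _).trans ?_
    push_cast
    linarith

/-- The trajectory with kicks `u i` and a shift `σ`. -/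
noncomputable def tr (G : ℝ → ℝ) (u : ℕ → ℝ → ℝ) (t0 σ : ℝ) : ℕ → ℝ
  | 0 => t0
  | i + 1 => G (tr G u t0 σ i + u i (tr G u t0 σ i) + σ)

variable {u : ℕ → ℝ → ℝ} {t0 : ℝ}

include hc in
theorem tr_cont (hu : ∀ i, Continuous (u i)) (i : ℕ) : Continuous fun σ => tr G u t0 σ i := by
  induction i with
  | zero => exact continuous_const
  | succ i ih =>
    show Continuous fun σ => G (tr G u t0 σ i + u i (tr G u t0 σ i) + σ)
    exact hc.comp ((ih.add ((hu i).comp ih)).add continuous_id)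

include hm in
theorem tr_ge (hu0 : ∀ i t, 0 ≤ u i t) {σ : ℝ} (hσ : 0 ≤ σ) (i j : ℕ) :
    G^[j] (tr G u t0 σ i) ≤ tr G u t0 σ (i + j) := by
  induction j with
  | zero => exact le_rfl
  | succ j ih =>
    rw [Function.iterate_succ_apply', ← add_assoc]
    show _ ≤ G (tr G u t0 σ (i + j) + u (i + j) (tr G u t0 σ (i + j)) + σ)
    apply hm
    have := hu0 (i + j) (tr G u t0 σ (i + j))
    linarith

include hm in
theorem tr_step {q : ℕ} {p : ℤ} (hq0 : 1 ≤ q) (hq : ∀ t, t + p ≤ G^[q] t)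
    (hu0 : ∀ i t, 0 ≤ u i t) {σ : ℝ} (hσ : 0 ≤ σ) (i : ℕ) :
    tr G u t0 σ i + u i (tr G u t0 σ i) + σ + p ≤ tr G u t0 σ (i + q) := by
  obtain ⟨q', rfl⟩ : ∃ q', q = q' + 1 := ⟨q - 1, by omega⟩
  have h2 := tr_ge (t0 := t0) hm hu0 hσ (i + 1) q'
  have h3 := hq (tr G u t0 σ i + u i (tr G u t0 σ i) + σ)
  rw [Function.iterate_succ_apply] at h3
  have e : i + (q' + 1) = i + 1 + q' := by ring
  rw [e]
  exact h3.trans h2

include hm hc h1 in
/-- **The bottleneck lemma.** Let `G^q ≥ id + p` with equality at `ζ`, and let `t₀` be at distance at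
least `2 w` from the orbit of `ζ` (mod `1/Q`). With kicks supported `w`-close to `t₀` (mod `1/Q`), of size at
most `η ≤ w`, for every large `n` there is a shift `σ ∈ [0, σ₁]` for which the trajectory of `t₀` is
back at `t₀` (mod 1) at the time `n`, and the total size of the kicks is bounded independently of
`n`. -/
theorem fib {q : ℕ} {p : ℤ} (hq0 : 1 ≤ q) (hq : ∀ t, t + p ≤ G^[q] t) {ζ : ℝ}
    (hζ : G^[q] ζ = ζ + p) {t0 w : ℝ} (hw : 0 < w)
    {Q : ℕ} (hQ : 1 ≤ Q) (hbar : ∀ i < q, ∀ m : ℤ, 2 * w ≤ |G^[i] ζ - (t0 + m / Q)|) {σ1 η : ℝ}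
    (hσ1 : 0 < σ1) (hη : 0 < η) (hηw : η ≤ w) :
    ∃ n0 K : ℕ, ∀ n : ℕ, n0 ≤ n → ∀ ρ : ℕ → ℝ → ℝ, (∀ i, Continuous (ρ i)) → (∀ i t, 0 ≤ ρ i t) →
      (∀ i t, ρ i t ≤ 1) → (∀ i t, ρ i t ≠ 0 → ∃ m : ℤ, |t - (t0 + m / Q)| < w) →
      ∃ (σ : ℝ) (m : ℤ) (s : ℕ → ℝ), 0 ≤ σ ∧ σ ≤ σ1 ∧ s 0 = t0 ∧
        (∀ i, s (i + 1) = G (s i + ρ i (s i) * η + σ)) ∧ s n = t0 + m ∧
        ∀ T : Finset ℕ, (∀ i ∈ T, i < n ∧ ρ i (s i) = 1) → T.card ≤ K := by
  classical
  set C : ℝ := q * (|G 0| + 1) with hC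
  have hC0 : 0 ≤ C := by positivity
  have hnear : ∀ j ≤ q, ∀ t, |G^[j] t - t| ≤ C := by
    intro j hj t
    refine (near_iter hm h1 j t).trans ?_
    have : (j : ℝ) ≤ q := by exact_mod_cast hj
    exact mul_le_mul_of_nonneg_right this (by positivity)
  -- the barrier at all times
  have hiter : ∀ (k : ℕ), G^[q * k] ζ = ζ + ((k * p : ℤ) : ℝ) := by
    intro k
    induction k with
    | zero => simp
    | succ k ih =>
      rw [Nat.mul_succ, add_comm, Function.iterate_add_apply, ih, iter_add_int h1, hζ]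
      push_cast
      ring
  have hQ0 : (Q : ℝ) ≠ 0 := by
    have : (1 : ℝ) ≤ Q := by exact_mod_cast hQ
    linarith
  have hbar' : ∀ i : ℕ, ∀ m : ℤ, 2 * w ≤ |G^[i] ζ - (t0 + m / Q)| := by
    intro i m
    have e : i = i % q + q * (i / q) := (Nat.mod_add_div i q).symm
    have h2 : G^[i] ζ = G^[i % q] ζ + (((i / q : ℕ) * p : ℤ) : ℝ) := by
      conv_lhs => rw [e]
      rw [Function.iterate_add_apply, hiter, iter_add_int h1]
    have h3 := hbar (i % q) (Nat.mod_lt i (by omega)) (m - (i / q : ℕ) * p * Q)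
    rw [h2]
    convert h3 using 2
    push_cast
    field_simp
    ring
  -- the point of the orbit above `t0`
  obtain ⟨a, ha1, ha2⟩ : ∃ a : ℤ, t0 ≤ ζ + a ∧ ζ + a ≤ t0 + 1 := by
    refine ⟨⌈t0 - ζ⌉, ?_, ?_⟩
    · have := Int.le_ceil (t0 - ζ)
      linarith
    · have := (Int.ceil_lt_add_one (t0 - ζ)).le
      linarith
  set c : ℤ := ⌈1 + C⌉ with hc'
  have hc1 : 1 + C ≤ c := Int.le_ceil _
  obtain ⟨k0, hk0⟩ := exists_nat_ge ((c + C) / σ1)
  rw [div_le_iff₀ hσ1] at hk0
  obtain ⟨K, hK⟩ := exists_nat_ge ((q * |(p : ℝ)| + q * c + 2 * q * C) / η + q)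
  refine ⟨q * (k0 + 1), K, fun n hn ρ hρc hρ0 hρ1 hρs => ?_⟩
  set u : ℕ → ℝ → ℝ := fun i t => ρ i t * η with hu
  have huc : ∀ i, Continuous (u i) := fun i => (hρc i).mul continuous_const
  have hu0 : ∀ i t, 0 ≤ u i t := fun i t => mul_nonneg (hρ0 i t) hη.le
  set k : ℕ := n / q with hk
  set r : ℕ := n % q with hr
  have hnk : n = q * k + r := (Nat.div_add_mod n q).symm
  have hrq : r < q := Nat.mod_lt n (by omega)
  have hkk : k0 ≤ k := by
    have : q * k0 ≤ n := (Nat.mul_le_mul_left q (by omega : k0 ≤ k0 + 1)).trans hn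
    rw [hk, Nat.le_div_iff_mul_le (by omega), mul_comm]
    exact this
  have hk1 : 1 ≤ k := by
    have : q * 1 ≤ n := (Nat.mul_le_mul_left q (by omega : 1 ≤ k0 + 1)).trans hn
    rw [hk, Nat.le_div_iff_mul_le (by omega), mul_comm]
    exact this
  have hqn : q ≤ n := by
    rw [hnk]
    have : q * 1 ≤ q * k := Nat.mul_le_mul_left q hk1
    omega
  -- the barrier
  have hup : ∀ i, tr G u t0 0 i ≤ G^[i] ζ + a := by
    intro i
    induction i with
    | zero => exact ha1
    | succ i ih =>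
      show G (tr G u t0 0 i + u i (tr G u t0 0 i) + 0) ≤ _
      rw [Function.iterate_succ_apply', ← add_int h1, add_zero]
      apply hm
      set x := tr G u t0 0 i with hx
      by_cases h0 : ρ i x = 0
      · simp only [hu, h0, zero_mul, add_zero]
        exact ih
      · obtain ⟨m, hmx⟩ := hρs i x h0
        have h2 := hbar' i (m - a * Q)
        have h3 : u i x ≤ w := by
          simp only [hu]
          have := mul_le_mul_of_nonneg_right (hρ1 i x) hη.le
          linarith
        rw [abs_lt] at hmx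
        have e3 : t0 + ((m - a * Q : ℤ) : ℝ) / Q = t0 + m / Q - a := by
          push_cast
          field_simp
          ring
        rw [e3] at h2
        rcases le_abs.1 h2 with h4 | h4 <;> linarith [hmx.1, hmx.2]
  set M : ℤ := k * p + c with hM
  have hup' : tr G u t0 0 n ≤ t0 + M := by
    have h2 := hup n
    have h3 : G^[n] ζ = G^[r] ζ + ((k * p : ℤ) : ℝ) := by
      rw [hnk, add_comm (q * k) r, Function.iterate_add_apply, hiter, iter_add_int h1]
    have h4 := (abs_le.1 (hnear r hrq.le ζ)).2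
    rw [h3] at h2
    push_cast at h2 ⊢
    rw [hM]
    push_cast
    linarith
  -- the lower bound for the largest shift
  have hlow : ∀ j : ℕ, t0 + j * (σ1 + p) ≤ tr G u t0 σ1 (q * j) := by
    intro j
    induction j with
    | zero => simp [tr]
    | succ j ih =>
      have h2 := tr_step (t0 := t0) hm hq0 hq hu0 hσ1.le (q * j)
      have h3 := hu0 (q * j) (tr G u t0 σ1 (q * j))
      rw [Nat.mul_succ]
      push_cast
      linarith
  have hlow' : t0 + M ≤ tr G u t0 σ1 n := by
    have h2 := hlow k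
    have h3 := tr_ge (t0 := t0) hm hu0 hσ1.le (q * k) r
    rw [← hnk] at h3
    have h4 := (abs_le.1 (hnear r hrq.le (tr G u t0 σ1 (q * k)))).1
    have h5 : c + C ≤ k * σ1 := by
      have : (k0 : ℝ) ≤ k := by exact_mod_cast hkk
      exact hk0.trans (mul_le_mul_of_nonneg_right this hσ1.le)
    rw [hM]
    push_cast
    linarith
  obtain ⟨σ, hσ, hσn⟩ := intermediate_value_Icc hσ1.le (tr_cont (t0 := t0) hc huc n).continuousOn
    ⟨hup', hlow'⟩
  refine ⟨σ, M, tr G u t0 σ, hσ.1, hσ.2, rfl, fun i => rfl, hσn, fun T hT => ?_⟩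
  -- the number of kicks
  set s := tr G u t0 σ with hs
  have hsn : s n = t0 + M := hσn
  have hstep : ∀ i, s i + ρ i (s i) * η + p ≤ s (i + q) := by
    intro i
    have h2 := tr_step (t0 := t0) hm hq0 hq hu0 hσ.1 i
    have h3 : u i (s i) = ρ i (s i) * η := rfl
    rw [← hs, h3] at h2
    linarith [hσ.1]
  have hsum : ∀ n' : ℕ, η * ∑ i ∈ Finset.range n', ρ i (s i) + n' * p +
      ∑ j ∈ Finset.range q, s j ≤ ∑ j ∈ Finset.range q, s (n' + j) := by
    intro n'
    induction n' with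
    | zero => simp
    | succ n' ih =>
      rw [Finset.sum_range_succ]
      have h2 : ∑ j ∈ Finset.range q, s (n' + 1 + j) =
          ∑ j ∈ Finset.range q, s (n' + j) + (s (n' + q) - s n') := by
        have h3 : ∀ a : ℕ, ∑ j ∈ Finset.range a, s (n' + 1 + j) =
            ∑ j ∈ Finset.range a, s (n' + j) + (s (n' + a) - s n') := by
          intro a
          induction a with
          | zero => simp
          | succ a iha =>
            rw [Finset.sum_range_succ, iha, Finset.sum_range_succ]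
            have : n' + 1 + a = n' + (a + 1) := by ring
            rw [this]
            ring
        exact h3 q
      rw [h2]
      have h4 := hstep n'
      push_cast
      nlinarith
  have h2 := hsum (n - q + 1)
  have h3 : ∀ j ∈ Finset.range q, s (n - q + 1 + j) ≤ t0 + M + C := by
    intro j hj
    rw [Finset.mem_range] at hj
    have h4 := tr_ge (t0 := t0) hm hu0 hσ.1 (n - q + 1 + j) (q - 1 - j)
    have e : n - q + 1 + j + (q - 1 - j) = n := by omega
    rw [e, ← hs, hsn] at h4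
    have h5 := (abs_le.1 (hnear (q - 1 - j) (by omega) (s (n - q + 1 + j)))).1
    linarith
  have h4 : ∀ j ∈ Finset.range q, t0 - C ≤ s j := by
    intro j hj
    rw [Finset.mem_range] at hj
    have h4 := tr_ge (t0 := t0) hm hu0 hσ.1 0 j
    rw [zero_add] at h4
    have h5 := (abs_le.1 (hnear j hj.le t0)).1
    have h6 : tr G u t0 σ 0 = t0 := rfl
    rw [h6, ← hs] at h4
    linarith
  have h5 := Finset.sum_le_sum h3
  have h6 := Finset.sum_le_sum h4
  rw [Finset.sum_const, Finset.card_range, nsmul_eq_mul] at h5 h6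
  have h7 : ((n - q + 1 : ℕ) : ℝ) = n - q + 1 := by
    rw [Nat.cast_add, Nat.cast_sub hqn, Nat.cast_one]
  rw [h7] at h2
  have h8 : (n : ℝ) = q * k + r := by exact_mod_cast hnk
  have h9 : (M : ℝ) = k * p + c := by rw [hM]; push_cast; ring
  -- `q M - (n - q + 1) p ≤ q |p| + q c`
  have h10 : (q : ℝ) * M - (n - q + 1) * p ≤ q * |(p : ℝ)| + q * c := by
    rw [h8, h9]
    have e : (q : ℝ) * (k * p + c) - (q * k + r - q + 1) * p = (q - r - 1) * p + q * c := by ring
    rw [e]
    have h11 : (0 : ℝ) ≤ q - r - 1 := by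
      have : (r : ℝ) + 1 ≤ q := by exact_mod_cast hrq
      linarith
    have h12 : (q - r - 1 : ℝ) * p ≤ (q - r - 1) * |(p : ℝ)| :=
      mul_le_mul_of_nonneg_left (le_abs_self _) h11
    have h13 : (q - r - 1 : ℝ) * |(p : ℝ)| ≤ q * |(p : ℝ)| := by
      apply mul_le_mul_of_nonneg_right _ (abs_nonneg _)
      have : (0 : ℝ) ≤ r := Nat.cast_nonneg r
      linarith
    linarith
  have h11 : η * ∑ i ∈ Finset.range (n - q + 1), ρ i (s i) ≤
      q * |(p : ℝ)| + q * c + 2 * q * C := by
    nlinarith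
  have h12 : ∑ i ∈ Finset.range (n - q + 1), ρ i (s i) ≤
      (q * |(p : ℝ)| + q * c + 2 * q * C) / η := by
    rw [le_div_iff₀ hη]
    linarith
  have h13 : ∑ i ∈ Finset.range n, ρ i (s i) ≤
      ∑ i ∈ Finset.range (n - q + 1), ρ i (s i) + q := by
    have h14 : Finset.range n ⊆ Finset.range (n - q + 1) ∪ Finset.Ico (n - q + 1) (n + 1) := by
      intro i hi
      rw [Finset.mem_range] at hi
      rw [Finset.mem_union, Finset.mem_range, Finset.mem_Ico]
      omega
    have h15 := Finset.sum_le_sum_of_subset_of_nonneg (f := fun i => ρ i (s i)) h14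
      (fun i _ _ => hρ0 i _)
    have h16 : ∑ i ∈ Finset.range (n - q + 1) ∪ Finset.Ico (n - q + 1) (n + 1), ρ i (s i) =
        ∑ i ∈ Finset.range (n - q + 1), ρ i (s i) + ∑ i ∈ Finset.Ico (n - q + 1) (n + 1),
          ρ i (s i) := by
      apply Finset.sum_union
      rw [Finset.disjoint_left]
      intro i hi hi'
      rw [Finset.mem_range] at hi
      rw [Finset.mem_Ico] at hi'
      omega
    have h17 : ∑ i ∈ Finset.Ico (n - q + 1) (n + 1), ρ i (s i) ≤
        ∑ i ∈ Finset.Ico (n - q + 1) (n + 1), (1 : ℝ) := Finset.sum_le_sum fun i _ => hρ1 i _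
    rw [Finset.sum_const, Nat.card_Ico, nsmul_eq_mul, mul_one] at h17
    have h18 : ((n + 1 - (n - q + 1) : ℕ) : ℝ) = q := by
      have : n + 1 - (n - q + 1) = q := by omega
      rw [this]
    rw [h18] at h17
    rw [h16] at h15
    linarith
  have h14 : (T.card : ℝ) ≤ ∑ i ∈ Finset.range n, ρ i (s i) := by
    have h15 : (T.card : ℝ) = ∑ i ∈ T, ρ i (s i) := by
      rw [Finset.sum_congr rfl fun i hi => (hT i hi).2]
      simp
    rw [h15]
    apply Finset.sum_le_sum_of_subset_of_nonneg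
    · intro i hi
      rw [Finset.mem_range]
      exact (hT i hi).1
    · intro i _ _
      exact hρ0 i _
  have h15 : (T.card : ℝ) ≤ K := by linarith
  exact_mod_cast h15

end

/-- Choice of the closing time. -/
theorem sel (k : ℕ) {κ η : ℝ} (hκ : 0 < κ) (hη : 0 < η) (K : ℕ) :
    ∃ d : ℝ, 0 < d ∧ ∀ (v : ℕ → ℝ) (n : ℕ) (T : Finset ℕ), T.card ≤ K → v n < d →
      (∀ i ∈ T, i < n) → ∃ b ρ, (b ∈ T ∨ b = n) ∧ 0 < ρ ∧ ρ < η ∧ v b < κ * ρ ^ k ∧
        ∀ i ∈ T, i < b → 2 * ρ ≤ v i := by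
  classical
  induction K with
  | zero =>
    refine ⟨κ * (η / 2) ^ k, by positivity, fun v n T hT hv hn => ⟨n, η / 2, Or.inr rfl,
      half_pos hη, half_lt_self hη, hv, fun i hi => ?_⟩⟩
    rw [Nat.le_zero, Finset.card_eq_zero] at hT
    rw [hT] at hi
    simp at hi
  | succ K ih =>
    obtain ⟨d', hd', hsel⟩ := ih
    set ρ1 : ℝ := min (η / 2) (d' / 2) with hρ1
    have hρ1p : 0 < ρ1 := lt_min (half_pos hη) (half_pos hd')
    refine ⟨κ * ρ1 ^ k, by positivity, fun v n T hT hv hn => ?_⟩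
    by_cases h : ∀ i ∈ T, 2 * ρ1 ≤ v i
    · exact ⟨n, ρ1, Or.inr rfl, hρ1p, (min_le_left _ _).trans_lt (half_lt_self hη), hv,
        fun i hi _ => h i hi⟩
    · push Not at h
      obtain ⟨i, hi, hvi⟩ := h
      have h2 : v i < d' := by
        have : ρ1 ≤ d' / 2 := min_le_right _ _
        linarith
      have h3 : (T.filter (· < i)).card ≤ K := by
        have : (T.filter (· < i)).card < T.card := by
          apply Finset.card_lt_card
          rw [Finset.ssubset_iff_of_subset (Finset.filter_subset _ _)]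
          exact ⟨i, hi, by simp⟩
        omega
      obtain ⟨b, ρ, hb, hρ, hρη, hvb, hall⟩ := hsel v i (T.filter (· < i)) h3 h2 (by
        intro j hj
        exact (Finset.mem_filter.1 hj).2)
      have hbi : b ≤ i := by
        rcases hb with hb | hb
        · exact (Finset.mem_filter.1 hb).2.le
        · exact hb.le
      refine ⟨b, ρ, ?_, hρ, hρη, hvb, fun j hj hjb => ?_⟩
      · left
        rcases hb with hb | hb
        · exact (Finset.mem_filter.1 hb).1
        · rw [hb]; exact hi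
      · exact hall j (Finset.mem_filter.2 ⟨hj, by omega⟩) hjb

end Q71.CC
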