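import Pool.Agent.H718R2.G0

/-!
# Closed sub-semigroups of tori
-/

set_option autoImplicit false
set_option linter.unusedSectionVars false

open Filter Set Topology

namespace Q71.CC

open Pool.Agent.H718R2.G

variable {d : ℕ}

/-- vectors with integer coordinates -/
def IntV (a : V d) : Prop := ∀ j, ∃ m : ℤ, a j = m

theorem IntV.zero : IntV (0 : V d) := fun j => ⟨0, by simp⟩

theorem IntV.add {a b : V d} (ha : IntV a) (hb : IntV b) : IntV (a + b) := fun j => by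
  obtain ⟨m, hm⟩ := ha j
  obtain ⟨l, hl⟩ := hb j
  exact ⟨m + l, by rw [PiLp.add_apply, hm, hl]; push_cast; ring⟩

theorem IntV.neg {a : V d} (ha : IntV a) : IntV (-a) := fun j => by
  obtain ⟨m, hm⟩ := ha j
  exact ⟨-m, by rw [PiLp.neg_apply, hm]; push_cast; ring⟩

theorem IntV.nsmul {a : V d} (ha : IntV a) (k : ℕ) : IntV ((k : ℝ) • a) := fun j => by
  obtain ⟨m, hm⟩ := ha j
  exact ⟨k * m, by rw [PiLp.smul_apply, hm, smul_eq_mul]; push_cast; ring⟩

/-- fractional parts of the coordinates -/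
noncomputable def fr (a : V d) : V d := WithLp.toLp 2 fun j => Int.fract (a j)

theorem fr_apply (a : V d) (j : Fin d) : fr a j = Int.fract (a j) := rfl

theorem fr_int (a : V d) : IntV (a - fr a) := fun j => ⟨⌊a j⌋, by
  rw [PiLp.sub_apply, fr_apply, Int.self_sub_fract]⟩

/-- the unit cube -/
def Box (d : ℕ) : Set (V d) := (WithLp.toLp 2) '' (Icc (0 : Fin d → ℝ) 1)

theorem box_compact (d : ℕ) : IsCompact (Box d) :=
  isCompact_Icc.image (PiLp.continuous_toLp 2 (fun _ : Fin d => ℝ))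

theorem fr_mem (a : V d) : fr a ∈ Box d := ⟨fun j => Int.fract (a j),
  ⟨fun _ => Int.fract_nonneg _, fun _ => (Int.fract_lt_one _).le⟩, rfl⟩

theorem approx (a : V d) {ε : ℝ} (hε : 0 < ε) :
    ∃ k : ℕ, 1 ≤ k ∧ ∃ m : V d, IntV m ∧ ‖(k : ℝ) • a - m‖ < ε := by
  obtain ⟨l, _, φ, hφ, hl⟩ := (box_compact d).tendsto_subseq
    (x := fun k : ℕ => fr ((k : ℝ) • a)) (fun k => fr_mem _)
  have h1 : ∀ᶠ i in atTop, dist (fr ((φ i : ℝ) • a)) l < ε / 2 :=
    (Metric.tendsto_nhds.1 hl) (ε / 2) (half_pos hε)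
  obtain ⟨i, hi⟩ := eventually_atTop.1 h1
  have h2 := hi i le_rfl
  have h3 := hi (i + 1) (by omega)
  have h4 : φ i < φ (i + 1) := hφ (by omega)
  refine ⟨φ (i + 1) - φ i, by omega, ((φ (i + 1) : ℝ) • a - fr ((φ (i + 1) : ℝ) • a)) -
    ((φ i : ℝ) • a - fr ((φ i : ℝ) • a)), ?_, ?_⟩
  · rw [sub_eq_add_neg]
    exact (fr_int _).add (fr_int _).neg
  · have e : ((φ (i + 1) - φ i : ℕ) : ℝ) • a - (((φ (i + 1) : ℝ) • a -
        fr ((φ (i + 1) : ℝ) • a)) - ((φ i : ℝ) • a - fr ((φ i : ℝ) • a))) =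
        fr ((φ (i + 1) : ℝ) • a) - fr ((φ i : ℝ) • a) := by
      rw [Nat.cast_sub h4.le, sub_smul]
      abel
    rw [e, ← dist_eq_norm]
    have := dist_triangle_right (fr ((φ (i + 1) : ℝ) • a)) (fr ((φ i : ℝ) • a)) l
    linarith

section semigroup
variable {S : Set (V d)} (hS : IsClosed S) (hadd : ∀ a ∈ S, ∀ b ∈ S, a + b ∈ S)
  (hint : ∀ a ∈ S, ∀ m, IntV m → a + m ∈ S)

include hadd in
theorem mul_memd {a : V d} (ha : a ∈ S) (k : ℕ) : ((k + 1 : ℕ) : ℝ) • a ∈ S := by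
  induction k with
  | zero => simpa using ha
  | succ k ih =>
    have := hadd _ ih _ ha
    have e : ((k + 1 : ℕ) : ℝ) • a + a = ((k + 1 + 1 : ℕ) : ℝ) • a := by
      push_cast
      rw [add_smul (k + 1 : ℝ) 1 a, one_smul]
    rwa [e] at this

include hS hadd hint in
theorem zero_memd (hne : S.Nonempty) : (0 : V d) ∈ S := by
  obtain ⟨a, ha⟩ := hne
  rw [← hS.closure_eq, Metric.mem_closure_iff]
  intro ε hε
  obtain ⟨k, hk, m, hm, hkm⟩ := approx a hε
  obtain ⟨k', rfl⟩ : ∃ k' : ℕ, k = k' + 1 := ⟨k - 1, by omega⟩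
  refine ⟨_, hint _ (mul_memd hadd ha k') (-m) hm.neg, ?_⟩
  rw [dist_comm, dist_eq_norm, sub_zero, ← sub_eq_add_neg]
  exact hkm

include hS hadd hint in
theorem neg_memd {a : V d} (ha : a ∈ S) : -a ∈ S := by
  have h0 : (0 : V d) ∈ S := zero_memd hS hadd hint ⟨a, ha⟩
  rw [← hS.closure_eq, Metric.mem_closure_iff]
  intro ε hε
  obtain ⟨k, hk, m, hm, hkm⟩ := approx a hε
  obtain ⟨k', rfl⟩ : ∃ k' : ℕ, k = k' + 1 := ⟨k - 1, by omega⟩
  have hk' : (k' : ℝ) • a ∈ S := by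
    rcases k' with _ | k'
    · simpa using h0
    · exact mul_memd hadd ha k'
  refine ⟨_, hint _ hk' (-m) hm.neg, ?_⟩
  rw [dist_comm, dist_eq_norm]
  have e : (k' : ℝ) • a + -m - -a = ((k' + 1 : ℕ) : ℝ) • a - m := by
    push_cast
    rw [add_smul, one_smul]
    abel
  rw [e]
  exact hkm

end semigroup

/-- rational approximation -/
theorem rat_near (v : V d) {ε : ℝ} (hε : 0 < ε) :
    ∃ b : V d, ‖b - v‖ < ε ∧ ∃ q : ℕ, 1 ≤ q ∧ IntV ((q : ℝ) • b) := by
  let b : ℕ → V d := fun m => WithLp.toLp 2 fun i => (round ((m + 1 : ℝ) * v i) : ℝ) / (m + 1) - v i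
  have hb : ∀ m i, b m i = (round ((m + 1 : ℝ) * v i) : ℝ) / (m + 1) - v i := fun m i => rfl
  have h1 : Tendsto b atTop (𝓝 0) := by
    have h2 : Tendsto (fun (m : ℕ) (i : Fin d) => (round ((m + 1 : ℝ) * v i) : ℝ) / (m + 1) - v i)
        atTop (𝓝 0) := by
      rw [tendsto_pi_nhds]
      intro i
      refine squeeze_zero_norm (fun m => ?_) tendsto_one_div_add_atTop_nhds_zero_nat
      have h3 : (0 : ℝ) < (m : ℝ) + 1 := by positivity
      have h4 : (round ((m + 1 : ℝ) * v i) : ℝ) / (m + 1) - v i =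
          -(((m + 1 : ℝ) * v i - round ((m + 1 : ℝ) * v i)) / (m + 1)) := by
        field_simp
        ring
      rw [h4, norm_neg, norm_div, Real.norm_eq_abs, Real.norm_eq_abs, abs_of_pos h3]
      have h5 := abs_sub_round ((m + 1 : ℝ) * v i)
      gcongr
      linarith
    have h3 := ((PiLp.continuous_toLp 2 (fun _ : Fin d => ℝ)).tendsto 0).comp h2
    exact h3
  obtain ⟨m, hm⟩ := ((h1.norm).eventually (by rw [norm_zero]; exact gt_mem_nhds hε)).exists
  refine ⟨v + b m, by rw [add_sub_cancel_left]; exact hm, m + 1, by omega,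
    fun i => ⟨round ((m + 1 : ℝ) * v i), ?_⟩⟩
  rw [PiLp.smul_apply, PiLp.add_apply, hb]
  have : ((m : ℝ) + 1) ≠ 0 := by positivity
  push_cast
  simp only [smul_eq_mul]
  field_simp
  ring

end Q71.CC
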