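import Pool.Agent.Q71.CC.Ext
import Pool.Agent.TH290.CL.Rec

/-!
# Circle extensions with bounded deviations along one recurrent orbit
-/

set_option autoImplicit false
set_option linter.unusedSectionVars false

open scoped Manifold ContDiff Topology
open Filter Set Metric

universe u v

namespace Q71.CC

open Pool.Agent.H718R2.G Pool.Agent.W564.SC Pool.Agent.TH290.CL Pool.Agent.Q100.Spec

section
variable {X : Type v} [TopologicalSpace X] (f : X ≃ₜ X) (x0 : X)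

/-- the orbit closure -/
def OC : Set X := closure (range fun k : ℤ => (f ^ k) x0)

theorem mem_OC : x0 ∈ OC f x0 := subset_closure ⟨0, by simp⟩

theorem zadd (a b : ℤ) (y : X) : (f ^ a) ((f ^ b) y) = (f ^ (a + b)) y := by
  rw [zpow_add]
  rfl

theorem zone (y : X) : f y = (f ^ (1 : ℤ)) y := by rw [zpow_one]

theorem OC_iff (y : X) : y ∈ OC f x0 ↔ f y ∈ OC f x0 := by
  have h : f '' (range fun k : ℤ => (f ^ k) x0) = range fun k : ℤ => (f ^ k) x0 := by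
    apply subset_antisymm
    · rintro _ ⟨_, ⟨k, rfl⟩, rfl⟩
      exact ⟨1 + k, by
        show (f ^ (1 + k)) x0 = f ((f ^ k) x0)
        rw [zone f ((f ^ k) x0), zadd]⟩
    · rintro _ ⟨k, rfl⟩
      refine ⟨(f ^ (k - 1)) x0, ⟨k - 1, rfl⟩, ?_⟩
      show f ((f ^ (k - 1)) x0) = (f ^ k) x0
      rw [zone f ((f ^ (k - 1)) x0), zadd]
      congr 2
      ring
  have h2 : f '' OC f x0 = OC f x0 := by
    rw [OC, f.image_closure, h]
  constructor
  · intro hy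
    rw [← h2]
    exact mem_image_of_mem _ hy
  · intro hy
    rw [← h2] at hy
    obtain ⟨y', hy', h3⟩ := hy
    rwa [← f.injective h3]

/-- the restriction to the orbit closure -/
def fOC : OC f x0 ≃ₜ OC f x0 := f.subtype (OC_iff f x0)

theorem fOC_apply (y : OC f x0) : ((fOC f x0 y : OC f x0) : X) = f y := rfl

theorem fOC_iter (m : ℕ) (y : OC f x0) : (((fOC f x0)^[m] y : OC f x0) : X) = f^[m] y := by
  induction m with
  | zero => rfl
  | succ m ih => rw [Function.iterate_succ_apply', Function.iterate_succ_apply', fOC_apply, ih]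

theorem npow (m : ℕ) (y : X) : f^[m] y = (f ^ (m : ℤ)) y := by
  rw [zpow_natCast]
  exact (Pool.Agent.TH290.CL.pow_apply f m y).symm

/-- Recurrence of `x0`, in the future or in the past. -/
def Rec2 : Prop :=
  (∀ W ∈ 𝓝 x0, ∃ m : ℕ, 1 ≤ m ∧ f^[m] x0 ∈ W) ∨ (∀ W ∈ 𝓝 x0, ∃ m : ℕ, 1 ≤ m ∧ f.symm^[m] x0 ∈ W)

theorem nonwand_OC (h : Rec2 f x0) (y : OC f x0) : NonWand (fOC f x0) y := by
  intro W hW
  rw [nhds_subtype_eq_comap, mem_comap] at hW
  obtain ⟨W0, hW0, hW0W⟩ := hW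
  obtain ⟨W1, hW1, hW1o, hyW1⟩ := mem_nhds_iff.1 hW0
  obtain ⟨_, hoW, ⟨k, rfl⟩⟩ := mem_closure_iff.1 y.2 W1 hW1o hyW1
  have hmem : ∀ j : ℤ, (f ^ j) x0 ∈ OC f x0 := fun j => subset_closure ⟨j, rfl⟩
  have hW2 : (f ^ k) ⁻¹' W1 ∈ 𝓝 x0 := (f ^ k).continuous.continuousAt.preimage_mem_nhds
    (hW1o.mem_nhds hoW)
  rcases h with h | h
  · obtain ⟨m, hm, hmx⟩ := h _ hW2
    refine ⟨m, hm, ⟨(f ^ k) x0, hmem k⟩, hW0W (hW1 hoW), hW0W ?_⟩
    show (((fOC f x0)^[m] ⟨(f ^ k) x0, hmem k⟩ : OC f x0) : X) ∈ W0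
    rw [fOC_iter]
    apply hW1
    show f^[m] ((f ^ k) x0) ∈ W1
    have h3 : (f ^ k) (f^[m] x0) ∈ W1 := hmx
    rw [npow, zadd] at h3 ⊢
    rwa [add_comm]
  · obtain ⟨m, hm, hmx⟩ := h _ hW2
    have h3 : (f ^ k) (f.symm^[m] x0) ∈ W1 := hmx
    have h4 : f.symm^[m] x0 = (f ^ (-(m : ℤ))) x0 := by
      apply (f ^ (m : ℤ)).injective
      rw [zadd, add_neg_cancel, zpow_zero, ← npow, iter_symm]
      rfl
    rw [h4, zadd] at h3
    refine ⟨m, hm, ⟨(f ^ (k + -(m : ℤ))) x0, hmem _⟩, hW0W (hW1 h3), hW0W ?_⟩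
    show (((fOC f x0)^[m] ⟨(f ^ (k + -(m : ℤ))) x0, hmem _⟩ : OC f x0) : X) ∈ W0
    rw [fOC_iter]
    apply hW1
    show f^[m] ((f ^ (k + -(m : ℤ))) x0) ∈ W1
    rw [npow, zadd]
    have e : (m : ℤ) + (k + -(m : ℤ)) = k := by ring
    rw [e]
    exact hoW

end

section
variable {n : ℕ} {N : Type u} [TopologicalSpace N] [T2Space N] [CompactSpace N]
  [ChartedSpace (V n) N] [IsManifold (𝓡 n) ∞ N] {ψ : ℝ → N → N}
  {X : Type v} [TopologicalSpace X]

theorem bsum_OC (f : X ≃ₜ X) (x0 : X) (τ : X → ℝ) (m : ℕ) (y : OC f x0) :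
    bsum (fOC f x0) (fun y : OC f x0 => τ y) m y = bsum f τ m y := by
  simp only [bsum, fOC_iter]

/-- **Circle extensions with bounded deviations along one orbit** -/
theorem ext_rec [T2Space X] [CompactSpace X] {r : ℕ∞} (hr : 1 ≤ r) (F : DiffM n N r)
    (hψ : IsFlow n N ψ) {Θ : X × AddCircle (1 : ℝ) → N} (hΘ : Topology.IsEmbedding Θ) (f : X ≃ₜ X)
    {τ : X → ℝ} (hτ : Continuous τ)
    (hflow : ∀ (t : ℝ) x (c : AddCircle (1 : ℝ)), ψ t (Θ (x, c)) = Θ (x, c + (t : AddCircle (1 : ℝ))))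
    (hF : ∀ x (c : AddCircle (1 : ℝ)), F (Θ (x, c)) = Θ (f x, c + ((τ x : ℝ) : AddCircle (1 : ℝ))))
    (x0 : X) (hrec : Rec2 f x0) {α C : ℝ}
    (hdev : ∀ (k : ℤ) (m : ℕ), |bsum f τ m ((f ^ k) x0) - m * α| ≤ C) (c : AddCircle (1 : ℝ)) :
    Pool.Agent.TH382.QC.ClosableAt n N r F (Θ (x0, c)) := by
  have : CompactSpace (OC f x0) := isCompact_iff_compactSpace.1 isClosed_closure.isCompact
  have hΘ' : Topology.IsEmbedding (fun a : (OC f x0) × AddCircle (1 : ℝ) => Θ ((a.1 : X), a.2)) :=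
    hΘ.comp (Topology.IsEmbedding.subtypeVal.prodMap Topology.IsEmbedding.id)
  refine ext_nw hr F hψ hΘ' (fOC f x0) (τ := fun y => τ y) (hτ.comp continuous_subtype_val)
    (fun t x' c' => hflow t x' c') (fun x' c' => hF x' c') (nonwand_OC f x0 hrec) (α := α) (C := C)
    ?_ ⟨x0, mem_OC f x0⟩ c
  intro m y
  rw [bsum_OC]
  have hcl : IsClosed {y : X | |bsum f τ m y - m * α| ≤ C} := by
    have h1 : Continuous fun y : X => |bsum f τ m y - m * α| := (D_cont f τ α hτ m).abs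
    exact isClosed_le h1 continuous_const
  have hsub : OC f x0 ⊆ {y : X | |bsum f τ m y - m * α| ≤ C} := by
    apply closure_minimal _ hcl
    rintro _ ⟨k, rfl⟩
    exact hdev k m
  exact hsub y.2

/-- the base point of a recurrent point is recurrent -/
theorem rec_base {r : ℕ∞} (F : DiffM n N r) {Θ : X × AddCircle (1 : ℝ) → N}
    (hΘ : Topology.IsEmbedding Θ) (f : X ≃ₜ X) {τ : X → ℝ}
    (hF : ∀ x (c : AddCircle (1 : ℝ)), F (Θ (x, c)) = Θ (f x, c + ((τ x : ℝ) : AddCircle (1 : ℝ))))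
    (x0 : X) (c : AddCircle (1 : ℝ)) (hrec : IsRec F.toHomeomorph (Θ (x0, c))) : Rec2 f x0 := by
  have h1 : ∀ (i : ℕ) (x : X) (c : AddCircle (1 : ℝ)), ∃ c', F^[i] (Θ (x, c)) = Θ (f^[i] x, c') := by
    intro i
    induction i with
    | zero => exact fun x c => ⟨c, rfl⟩
    | succ i ih =>
      intro x c
      obtain ⟨c', hc'⟩ := ih x c
      exact ⟨_, by rw [Function.iterate_succ_apply', hc', hF, Function.iterate_succ_apply' f]⟩
  have hs : ∀ (x : X) (c : AddCircle (1 : ℝ)), F.symm (Θ (x, c)) =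
      Θ (f.symm x, c - ((τ (f.symm x) : ℝ) : AddCircle (1 : ℝ))) := by
    intro x c
    apply F.injective
    change F (F.symm (Θ (x, c))) = F (Θ (f.symm x, c - ((τ (f.symm x) : ℝ) : AddCircle (1 : ℝ))))
    rw [F.apply_symm_apply, hF, f.apply_symm_apply, sub_add_cancel]
  have h2 : ∀ (i : ℕ) (x : X) (c : AddCircle (1 : ℝ)), ∃ c',
      F.symm^[i] (Θ (x, c)) = Θ (f.symm^[i] x, c') := by
    intro i
    induction i with
    | zero => exact fun x c => ⟨c, rfl⟩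
    | succ i ih =>
      intro x c
      obtain ⟨c', hc'⟩ := ih x c
      exact ⟨_, by rw [Function.iterate_succ_apply', hc', hs, Function.iterate_succ_apply' f.symm]⟩
  have h3 : ∀ W ∈ 𝓝 x0, ∃ W' ∈ 𝓝 (Θ (x0, c)), ∀ x' c', Θ (x', c') ∈ W' → x' ∈ W := by
    intro W hW
    have h4 : Prod.fst ⁻¹' W ∈ 𝓝 (x0, c) := continuous_fst.continuousAt.preimage_mem_nhds hW
    rw [hΘ.isInducing.nhds_eq_comap, mem_comap] at h4
    obtain ⟨W', hW', h5⟩ := h4
    exact ⟨W', hW', fun x' c' h => h5 (show Θ (x', c') ∈ W' from h)⟩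
  rcases rec_cases _ _ hrec with h | h
  · left
    intro W hW
    obtain ⟨W', hW', h4⟩ := h3 W hW
    obtain ⟨m, hm, hmW⟩ := h W' hW'
    obtain ⟨c', hc'⟩ := h1 m x0 c
    refine ⟨m, hm, h4 _ c' ?_⟩
    rw [← hc']
    exact hmW
  · right
    intro W hW
    obtain ⟨W', hW', h4⟩ := h3 W hW
    obtain ⟨m, hm, hmW⟩ := h W' hW'
    obtain ⟨c', hc'⟩ := h2 m x0 c
    refine ⟨m, hm, h4 _ c' ?_⟩
    rw [← hc']
    exact hmW

end

end Q71.CC
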