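import Pool.Agent.Q71.CC.Lat
import Pool.Agent.Q71.CC.Equi2

/-!
# Diffeomorphisms commuting with a torus action
-/

set_option autoImplicit false
set_option linter.unusedSectionVars false

open scoped Manifold ContDiff Topology
open Filter Set Metric

universe u v

namespace Q71.CC

open Pool.Agent.H718R2.G Pool.Agent.W564.SC Pool.Agent.TH290.CL Pool.Agent.Q100.Spec
open Pool.Agent.TH382.QC (orbit ClosableAt)

section
variable {d n : ℕ} {N : Type u} [TopologicalSpace N] [T2Space N] [CompactSpace N]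
  [ChartedSpace (V n) N] [IsManifold (𝓡 n) ∞ N] {R : V d → N → N}
  (hRs : ContMDiff ((𝓡 d).prod (𝓡 n)) (𝓡 n) ∞ (fun q : V d × N => R q.1 q.2))
  (hR0 : ∀ y, R 0 y = y) (hRa : ∀ a b y, R (a + b) y = R a (R b y))
  {K : Set N} (hKR : ∀ a, ∀ y ∈ K, R a y ∈ K) (hKi : ∀ m, IntV m → ∀ y ∈ K, R m y = y)

include hRs in
theorem act_cont (a : V d) : Continuous (R a) := hRs.continuous.comp (Continuous.prodMk_right a)

include hRa hKi in
theorem act_int {a b : V d} (h : IntV (a - b)) {y : N} (hy : y ∈ K) : R a y = R b y := by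
  have e : a = b + (a - b) := by abel
  rw [e, hRa, hKi _ h y hy]

include hRs hR0 hRa hKR hKi in
/-- A point which is recurrent for `R_α ∘ g` is recurrent for `g`. -/
theorem rec_shiftd {g : N → N} (hg : Continuous g) (hgK : ∀ y ∈ K, g y ∈ K)
    (hgc : ∀ a, ∀ y ∈ K, g (R a y) = R a (g y)) {z : N} (hz : z ∈ K)
    (α : V d) (F : N → N) (hF : ∀ y ∈ K, F y = R α (g y))
    (hrec : ∀ W ∈ 𝓝 z, ∃ m : ℕ, 1 ≤ m ∧ F^[m] z ∈ W) :
    ∀ W ∈ 𝓝 z, ∃ m : ℕ, 1 ≤ m ∧ g^[m] z ∈ W := by
  have hic : ∀ (k : ℕ) (a : V d), ∀ y ∈ K, g^[k] (R a y) = R a (g^[k] y) := by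
    intro k a
    induction k with
    | zero => exact fun y hy => rfl
    | succ k ih =>
      intro y hy
      rw [Function.iterate_succ_apply', Function.iterate_succ_apply', ih y hy,
        hgc _ _ (iter_mem' hgK k y hy)]
  set Ω : Set N := closure {y | ∃ m : ℕ, g^[m + 1] z = y} with hΩ
  have hgΩ : ∀ m : ℕ, ∀ y ∈ Ω, g^[m] y ∈ Ω := by
    intro m y hy
    refine map_mem_closure (hg.iterate m) hy ?_
    rintro _ ⟨k, rfl⟩
    exact ⟨m + k, by
      rw [← Function.iterate_add_apply]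
      rfl⟩
  set S : Set (V d) := {a | R a z ∈ Ω} with hS
  have hSc : IsClosed S := isClosed_closure.preimage
    (hRs.continuous.comp (Continuous.prodMk_left z))
  have hadd : ∀ a ∈ S, ∀ b ∈ S, a + b ∈ S := by
    intro a ha b hb
    show R (a + b) z ∈ Ω
    rw [hRa]
    refine closure_minimal ?_ isClosed_closure (map_mem_closure (t := R a '' {y | ∃ m : ℕ,
      g^[m + 1] z = y}) (act_cont hRs a) hb (fun y hy => mem_image_of_mem _ hy))
    rintro _ ⟨_, ⟨k, rfl⟩, rfl⟩
    rw [← hic _ _ z hz]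
    exact hgΩ _ _ ha
  have hint : ∀ a ∈ S, ∀ m, IntV m → a + m ∈ S := by
    intro a ha m hm
    show R (a + m) z ∈ Ω
    rw [hRa, hKi m hm z hz]
    exact ha
  have hFm : ∀ m : ℕ, F^[m] z = R ((m : ℝ) • α) (g^[m] z) := by
    intro m
    induction m with
    | zero => rw [Nat.cast_zero, zero_smul, hR0]; rfl
    | succ m ih =>
      rw [Function.iterate_succ_apply', ih, hF _ (hKR _ _ (iter_mem' hgK m z hz)),
        hgc _ _ (iter_mem' hgK m z hz), ← hRa, Function.iterate_succ_apply' g]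
      congr 1
      push_cast
      rw [add_smul, one_smul, add_comm]
  have hne : S.Nonempty := by
    by_contra hcon
    rw [Set.not_nonempty_iff_eq_empty] at hcon
    set P : Set N := (fun q : V d × N => R q.1 q.2) '' (Box d ×ˢ Ω) with hP
    have hPc : IsClosed P := (((box_compact d).prod isClosed_closure.isCompact).image
      hRs.continuous).isClosed
    have hzP : z ∉ P := by
      rintro ⟨⟨t, y⟩, ⟨_, hy⟩, h1⟩
      have h2 : R t y = z := h1
      have h3 : -t ∈ S := by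
        show R (-t) z ∈ Ω
        rw [← h2, ← hRa, neg_add_cancel, hR0]
        exact hy
      rw [hcon] at h3
      exact h3
    obtain ⟨m, hm, hmP⟩ := hrec Pᶜ (hPc.isOpen_compl.mem_nhds hzP)
    apply hmP
    refine ⟨(fr ((m : ℝ) • α), g^[m] z), ⟨fr_mem _,
      subset_closure ⟨m - 1, by rw [Nat.sub_add_cancel hm]⟩⟩, ?_⟩
    show R (fr ((m : ℝ) • α)) (g^[m] z) = F^[m] z
    rw [hFm]
    exact (act_int hRa hKi (fr_int _) (iter_mem' hgK m z hz)).symm
  have h0 : (0 : V d) ∈ S := zero_memd hSc hadd hint hne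
  have h1 : z ∈ Ω := by
    have h2 : R 0 z ∈ Ω := h0
    rwa [hR0] at h2
  intro W hW
  obtain ⟨_, hy, ⟨m, rfl⟩⟩ := mem_closure_iff_nhds.1 h1 W hW
  exact ⟨m + 1, by omega, hy⟩

include hRa hKR in
theorem iter_formula {g : N → N} (hgK : ∀ y ∈ K, g y ∈ K)
    (hgc : ∀ a, ∀ y ∈ K, g (R a y) = R a (g y)) (hR0 : ∀ y, R 0 y = y)
    (α : V d) (F : N → N) (hF : ∀ y ∈ K, F y = R α (g y)) (k : ℕ) :
    ∀ y ∈ K, F^[k] y = R ((k : ℝ) • α) (g^[k] y) := by
  induction k with
  | zero => intro y _; rw [Nat.cast_zero, zero_smul, hR0]; rfl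
  | succ k ih =>
    intro y hy
    rw [Function.iterate_succ_apply', ih y hy, hF _ (hKR _ _ (iter_mem' hgK k y hy)),
      hgc _ _ (iter_mem' hgK k y hy), ← hRa, Function.iterate_succ_apply' g]
    congr 1
    push_cast
    rw [add_smul, one_smul, add_comm]

include hRa hKR in
theorem iter_commd {g : N → N} (hgK : ∀ y ∈ K, g y ∈ K)
    (hgc : ∀ a, ∀ y ∈ K, g (R a y) = R a (g y)) (k : ℕ) (a : V d) :
    ∀ y ∈ K, g^[k] (R a y) = R a (g^[k] y) := by
  induction k with
  | zero => exact fun y hy => rfl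
  | succ k ih =>
    intro y hy
    rw [Function.iterate_succ_apply', Function.iterate_succ_apply', ih y hy,
      hgc _ _ (iter_mem' hgK k y hy)]

theorem intv_closed (d : ℕ) : IsClosed {a : V d | IntV a} := by
  have e : {a : V d | IntV a} = ⋂ j, (fun a : V d => a j) ⁻¹' (range ((↑) : ℤ → ℝ)) := by
    ext a
    simp only [mem_ofPred_eq, mem_iInter, mem_preimage, mem_range, IntV]
    exact forall_congr' fun j => ⟨fun ⟨m, h⟩ => ⟨m, h.symm⟩, fun ⟨m, h⟩ => ⟨m, h.symm⟩⟩
  rw [e]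
  refine isClosed_iInter fun j => Int.isClosedEmbedding_coe_real.isClosed_range.preimage ?_
  fun_prop

/-- the maps of the action -/
noncomputable def actMap (hRs : ContMDiff ((𝓡 d).prod (𝓡 n)) (𝓡 n) ∞ (fun q : V d × N => R q.1 q.2))
    (hR0 : ∀ y, R 0 y = y) (hRa : ∀ a b y, R (a + b) y = R a (R b y)) (a : V d) : N ≃ₜ N where
  toFun := R a
  invFun := R (-a)
  left_inv y := by rw [← hRa, neg_add_cancel, hR0]
  right_inv y := by rw [← hRa, add_neg_cancel, hR0]
  continuous_toFun := act_cont hRs a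
  continuous_invFun := act_cont hRs (-a)

theorem actMap_apply (a : V d) (y : N) : actMap hRs hR0 hRa a y = R a y := rfl

include hRs hR0 hRa in
theorem torus_K {r : ℕ∞} (hr : 1 ≤ r) (F : DiffM n N r) (hKc : IsClosed K)
    (hKF : ∀ y ∈ K, F y ∈ K) (hKF' : ∀ y ∈ K, F.symm y ∈ K) (hKR : ∀ a, ∀ y ∈ K, R a y ∈ K)
    (hKi : ∀ m, IntV m → ∀ y ∈ K, R m y = y) (hcomm : ∀ a, ∀ y ∈ K, F (R a y) = R a (F y)) {z : N}
    (hz : z ∈ K) (hrec : (∀ W ∈ 𝓝 z, ∃ m : ℕ, 1 ≤ m ∧ F^[m] z ∈ W) ∨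
      (∀ W ∈ 𝓝 z, ∃ m : ℕ, 1 ≤ m ∧ F.symm^[m] z ∈ W)) (α v : V d)
    (hv : R v z ∉ closure (orbit (fun y => R (-α) (F y)) z)) : ClosableAt n N r F z := by
  classical
  apply Pool.Agent.TH382.HS.closable_of_limit
  intro U hU hFU
  set g : N ≃ₜ N := F.toHomeomorph.trans (actMap hRs hR0 hRa (-α)) with hg
  have hgy : ∀ y, g y = R (-α) (F y) := fun y => rfl
  have hgs : ∀ y, g.symm y = F.symm (R α y) := by
    intro y
    apply g.injective
    rw [g.apply_symm_apply, hgy, F.apply_symm_apply, ← hRa, neg_add_cancel, hR0]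
  have hgK : ∀ y ∈ K, g y ∈ K := fun y hy => hKR _ _ (hKF y hy)
  have hgK' : ∀ y ∈ K, g.symm y ∈ K := fun y hy => by
    rw [hgs]
    exact hKF' _ (hKR _ _ hy)
  have hgc : ∀ a, ∀ y ∈ K, g (R a y) = R a (g y) := by
    intro a y hy
    rw [hgy, hgy, hcomm a y hy, ← hRa, ← hRa, add_comm]
  have hgc' : ∀ a, ∀ y ∈ K, g.symm (R a y) = R a (g.symm y) := by
    intro a y hy
    apply g.injective
    rw [g.apply_symm_apply, hgc _ _ (hgK' y hy), g.apply_symm_apply]
  have hFg : ∀ y ∈ K, F y = R α (g y) := by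
    intro y _
    rw [hgy, ← hRa, add_neg_cancel, hR0]
  set M : Set N := closure (orbit g z) with hM
  have hMc : IsClosed M := isClosed_closure
  have hzM : z ∈ M := subset_closure (orbit_self g z)
  -- the group
  set S : Set (V d) := {a | R a z ∈ M} with hS
  have hSc : IsClosed S := hMc.preimage (hRs.continuous.comp (Continuous.prodMk_left z))
  have hadd : ∀ a ∈ S, ∀ b ∈ S, a + b ∈ S := by
    intro a ha b hb
    show R (a + b) z ∈ M
    rw [hRa]
    refine closure_minimal ?_ hMc (map_mem_closure (t := R a '' orbit g z)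
      (act_cont hRs a) hb (fun y hy => mem_image_of_mem _ hy))
    rintro _ ⟨y, ⟨k, hk | hk⟩, rfl⟩
    · rw [← hk, ← iter_commd hRa hKR hgK hgc _ _ z hz]
      exact iter_mem' (K := M) (fun y hy => oc_fwd g z hy) k _ ha
    · have h1 : y = g.symm^[k] z := by
        rw [← hk]
        exact (Function.LeftInverse.iterate (f := g) (g := g.symm) g.symm_apply_apply k y).symm
      rw [h1, ← iter_commd hRa hKR hgK' hgc' _ _ z hz]
      exact iter_mem' (K := M) (fun y hy => oc_bwd g z hy) k _ ha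
  have hint : ∀ a ∈ S, ∀ m, IntV m → a + m ∈ S := by
    intro a ha m hm
    show R (a + m) z ∈ M
    rw [hRa, hKi m hm z hz]
    exact ha
  have hvS : v ∉ S := hv
  -- a rational direction
  obtain ⟨ε, hε, hball⟩ := Metric.isOpen_iff.1 hSc.isOpen_compl v hvS
  obtain ⟨b, hbv, q0, hq0, hb⟩ := rat_near v hε
  have hbS : b ∉ S := hball (by rw [mem_ball, dist_eq_norm]; exact hbv)
  set w : V d := (q0 : ℝ) • b with hw
  have hq0' : (q0 : ℝ) ≠ 0 := by
    have : (1 : ℝ) ≤ q0 := by exact_mod_cast hq0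
    linarith
  -- the rational perturbation
  obtain ⟨H, κ1, hκ1, hH0, hHf, hH⟩ := Pool.Agent.TH80.CLX.act_fam (A := R) hRs
    (ρ := fun _ => (1 : ℝ)) contMDiff_const hR0 hRa r F
  obtain ⟨κ2, hκ2, hmem⟩ := Pool.Agent.TH80.CLX.fam_mem r hr H hHf z U hU (by rw [hH0]; exact hFU)
  obtain ⟨ρ, hρα, q1, hq1, hρ⟩ := rat_near α (lt_min hκ1 hκ2)
  have hq1' : (q1 : ℝ) ≠ 0 := by
    have : (1 : ℝ) ≤ q1 := by exact_mod_cast hq1
    linarith
  set β : V d := ρ - α with hβ
  set F' : DiffM n N r := H β with hF'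
  have hF'y : ∀ y, F' y = F (R β y) := by
    intro y
    rw [hF', hH β (hρα.trans_le (min_le_left _ _)), one_smul]
  have hF's : ∀ y, F'.symm y = R (-β) (F.symm y) := by
    intro y
    apply F'.injective
    change F' (F'.symm y) = F' (R (-β) (F.symm y))
    rw [F'.apply_symm_apply, hF'y, ← hRa, add_neg_cancel, hR0, F.apply_symm_apply]
  refine ⟨F', hmem β (hρα.trans_le (min_le_right _ _)), subset_closure ?_⟩
  have hF'K : ∀ y ∈ K, F' y ∈ K := fun y hy => by
    rw [hF'y]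
    exact hKF _ (hKR _ _ hy)
  have hF'K' : ∀ y ∈ K, F'.symm y ∈ K := fun y hy => by
    rw [hF's]
    exact hKR _ _ (hKF' _ hy)
  have hF'c : ∀ a, ∀ y ∈ K, F' (R a y) = R a (F' y) := by
    intro a y hy
    rw [hF'y, hF'y, ← hRa, add_comm, hRa, hcomm _ _ (hKR _ _ hy)]
  have hF'c' : ∀ a, ∀ y ∈ K, F'.symm (R a y) = R a (F'.symm y) := by
    intro a y hy
    apply F'.injective
    change F' (F'.symm (R a y)) = F' (R a (F'.symm y))
    rw [F'.apply_symm_apply, hF'c _ _ (hF'K' y hy), F'.apply_symm_apply]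
  have hF'F : ∀ y ∈ K, F y = R (-β) (F' y) := by
    intro y hy
    rw [hF'y, hcomm _ _ hy, ← hRa, neg_add_cancel, hR0]
  have hF'F' : ∀ y ∈ K, F.symm y = R β (F'.symm y) := by
    intro y _
    rw [hF's, ← hRa, add_neg_cancel, hR0]
  have hF'g : ∀ y ∈ K, F' y = R ρ (g y) := by
    intro y hy
    rw [hF'y, hcomm _ _ hy, hFg y hy, ← hRa, hβ, sub_add_cancel]
  have hψ : IsFlow n N (fun t y => R (t • w) y) := Pool.Agent.TH80.CLX.act_flow hRs hR0 hRa w
  refine equi_K hr F' hψ hKc hF'K hF'K' (fun t y hy => hKR _ _ hy) ?_ (fun t y hy => hF'c _ y hy) hz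
    ?_ 0 (1 / ((q0 : ℝ) * q1)) ?_
  · intro y hy
    show R ((1 : ℝ) • w) y = y
    rw [one_smul]
    exact hKi w hb y hy
  · rcases hrec with h | h
    · left
      exact rec_shiftd hRs hR0 hRa hKR hKi F'.continuous hF'K hF'c hz (-β) F hF'F h
    · right
      exact rec_shiftd hRs hR0 hRa hKR hKi F'.symm.continuous hF'K' hF'c' hz β F.symm hF'F' h
  · have e0 : (fun y => R ((-(0 : ℝ)) • w) (F' y)) = F' := by
      funext y
      rw [neg_zero, zero_smul, hR0]
    show R ((1 / ((q0 : ℝ) * q1)) • w) z ∉ closure (orbit (fun y => R ((-(0 : ℝ)) • w) (F' y)) z)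
    rw [e0]
    set P : Set N := (fun q : V d × N => R (-q.1) q.2) ''
      ((Box d ∩ {c | IntV ((q1 : ℝ) • c)}) ×ˢ M) with hP
    have hPc : IsClosed P := by
      have h1 : IsClosed {c : V d | IntV ((q1 : ℝ) • c)} :=
        (intv_closed d).preimage (continuous_const_smul _)
      have h2 : Continuous (fun q : V d × N => R (-q.1) q.2) :=
        hRs.continuous.comp (continuous_fst.neg.prodMk continuous_snd)
      exact ((((box_compact d).inter_right h1).prod hMc.isCompact).image h2).isClosed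
    have hfrI : ∀ c : V d, IntV ((q1 : ℝ) • c) → IntV ((q1 : ℝ) • fr c) := by
      intro c hc
      have h1 := (fr_int c).nsmul q1
      have e : (q1 : ℝ) • fr c = (q1 : ℝ) • c + -((q1 : ℝ) • (c - fr c)) := by
        rw [smul_sub]
        abel
      rw [e]
      exact hc.add h1.neg
    have hPm : ∀ y ∈ K, ∀ c : V d, IntV ((q1 : ℝ) • c) → R c y ∈ M → y ∈ P := by
      intro y hy c hc hcy
      refine ⟨(fr c, R c y), ⟨⟨fr_mem c, hfrI c hc⟩, hcy⟩, ?_⟩
      show R (-fr c) (R c y) = y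
      rw [← hRa]
      have e : -fr c + c = c - fr c := by abel
      rw [e]
      exact hKi _ (fr_int c) y hy
    have hsub : closure (orbit F' z) ⊆ P := by
      apply closure_minimal _ hPc
      intro y hy
      have hyK : y ∈ K := orbit_sub F'.toHomeomorph z hF'K hF'K' hz hy
      obtain ⟨k, hk | hk⟩ := hy
      · refine hPm y hyK (-((k : ℝ) • ρ)) ?_ ?_
        · have e : (q1 : ℝ) • (-((k : ℝ) • ρ)) = -((k : ℝ) • ((q1 : ℝ) • ρ)) := by
            rw [smul_neg, smul_comm]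
          rw [e]
          exact (hρ.nsmul k).neg
        · rw [← hk, iter_formula hRa hKR hgK hgc hR0 ρ F' hF'g k z hz, ← hRa, neg_add_cancel, hR0]
          exact subset_closure ⟨k, Or.inl rfl⟩
      · refine hPm y hyK ((k : ℝ) • ρ) ?_ ?_
        · rw [smul_comm]
          exact hρ.nsmul k
        · apply subset_closure
          refine ⟨k, Or.inr ?_⟩
          rw [iter_commd hRa hKR hgK hgc _ _ y hyK, ← iter_formula hRa hKR hgK hgc hR0 ρ F' hF'g k y hyK]
          exact hk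
    intro hcon
    obtain ⟨⟨c, m⟩, ⟨⟨_, hc⟩, hm⟩, hcm⟩ := hsub hcon
    have h1 : R (-c) m = R ((1 / ((q0 : ℝ) * q1)) • w) z := hcm
    have h2 : c + (1 / ((q0 : ℝ) * q1)) • w ∈ S := by
      show R (c + (1 / ((q0 : ℝ) * q1)) • w) z ∈ M
      rw [hRa, ← h1, ← hRa, add_neg_cancel, hR0]
      exact hm
    obtain ⟨q1', rfl⟩ : ∃ q1', q1 = q1' + 1 := ⟨q1 - 1, by omega⟩
    have h3 := mul_memd hadd h2 q1'
    have h4 := hint _ h3 _ (IntV.neg hc)
    apply hbS
    have e : ((q1' + 1 : ℕ) : ℝ) • (c + (1 / ((q0 : ℝ) * ((q1' + 1 : ℕ) : ℝ))) • w) +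
        -(((q1' + 1 : ℕ) : ℝ) • c) = b := by
      rw [smul_add, add_comm (((q1' + 1 : ℕ) : ℝ) • c), add_neg_cancel_right, hw, smul_smul,
        smul_smul]
      have : ((q1' + 1 : ℕ) : ℝ) * (1 / ((q0 : ℝ) * ((q1' + 1 : ℕ) : ℝ))) * (q0 : ℝ) = 1 := by
        field_simp
      rw [this, one_smul]
    rwa [e] at h4

include hRs hR0 hRa in
/-- **Closing for diffeomorphisms commuting with a torus action.** Let `z` be a recurrent point of
`F`, and let `R` be a smooth action of `ℝ^d` on `N` which commutes with `F` along the orbit of `z` and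
for which `ℤ^d` fixes `z`. If for some `α` the orbit closure of `z` under `R_{-α} ∘ F` does not
contain `R_{ℝ^d} z`, then `F` can be closed at `z`. -/
theorem torus {r : ℕ∞} (hr : 1 ≤ r) (F : DiffM n N r) {z : N} (hz1 : ∀ a, IntV a → R a z = z)
    (hcomm : ∀ y ∈ orbit F z, ∀ a, F (R a y) = R a (F y)) (hrec : IsRec F.toHomeomorph z)
    (α v : V d) (hv : R v z ∉ closure (orbit (fun y => R (-α) (F y)) z)) :
    ClosableAt n N r F z := by
  have hfwd : ∀ y ∈ orbit F z, F y ∈ orbit F z := fun y hy => orbit_fwd F.toHomeomorph z hy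
  have hbwd : ∀ y ∈ orbit F z, F.symm y ∈ orbit F z := fun y hy => orbit_bwd F.toHomeomorph z hy
  have hcj : ∀ (j : ℕ) (a : V d), ∀ y ∈ orbit F z, F^[j] (R a y) = R a (F^[j] y) := by
    intro j a
    induction j with
    | zero => exact fun y _ => rfl
    | succ j ih =>
      intro y hy
      rw [Function.iterate_succ_apply', ih y hy, hcomm _ (iter_mem' hfwd j y hy),
        Function.iterate_succ_apply' F]
  have hper : ∀ m, IntV m → ∀ y ∈ orbit F z, R m y = y := by
    intro m hm y hy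
    obtain ⟨j, hj | hj⟩ := id hy
    · rw [← hj, ← hcj j m z ⟨0, Or.inl rfl⟩, hz1 m hm]
    · have h2 := hcj j m y hy
      rw [hj, hz1 m hm, ← hj] at h2
      exact F.injective.iterate j h2
  set K0 : Set N := {y | ∃ a : V d, ∃ y' ∈ orbit F z, R a y' = y} with hK0
  have c0 : ∀ y ∈ K0, ∀ a, F (R a y) = R a (F y) := by
    rintro _ ⟨s, y', hy', rfl⟩ t
    rw [← hRa, hcomm y' hy', hcomm y' hy', hRa]
  have hzK0 : z ∈ K0 := ⟨0, z, ⟨0, Or.inl rfl⟩, hR0 z⟩
  refine torus_K (K := closure K0) hRs hR0 hRa hr F isClosed_closure ?_ ?_ ?_ ?_ ?_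
    (subset_closure hzK0) (rec_cases _ _ hrec) α v hv
  · intro y hy
    refine map_mem_closure F.continuous hy ?_
    rintro _ ⟨t, y', hy', rfl⟩
    exact ⟨t, F y', hfwd y' hy', (hcomm y' hy' t).symm⟩
  · intro y hy
    refine map_mem_closure F.symm.continuous hy ?_
    rintro _ ⟨t, y', hy', rfl⟩
    refine ⟨t, F.symm y', hbwd y' hy', ?_⟩
    apply F.injective
    change F (R t (F.symm y')) = F (F.symm (R t y'))
    rw [hcomm _ (hbwd y' hy'), F.apply_symm_apply, F.apply_symm_apply]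
  · intro t y hy
    refine map_mem_closure (act_cont hRs t) hy ?_
    rintro _ ⟨s, y', hy', rfl⟩
    exact ⟨t + s, y', hy', hRa t s y'⟩
  · intro m hm y hy
    refine closure_minimal (s := K0) (t := {y | R m y = y}) ?_
      (isClosed_eq (act_cont hRs m) continuous_id) hy
    rintro _ ⟨t, y', hy', rfl⟩
    show R m (R t y') = R t y'
    rw [← hRa, add_comm, hRa, hper m hm y' hy']
  · intro t y hy
    refine closure_minimal (s := K0) (t := {y | F (R t y) = R t (F y)}) ?_
      (isClosed_eq (F.continuous.comp (act_cont hRs t)) ((act_cont hRs t).comp F.continuous)) hy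
    exact fun y hy => c0 y hy t

end

end Q71.CC
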